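import Mathlib

set_option autoImplicit false

namespace Pool.Agent.Helper93.Sheet

open MeasureTheory ENNReal

abbrev E := Fin 4 → ℝ

/-- Partial sums of a finite sequence of steps. -/
def ps {N : ℕ} (ξ : Fin N → E) (i : ℕ) : E := ∑ l : Fin N, if l.val < i then ξ l else 0

theorem ps_zero {N : ℕ} (ξ : Fin N → E) : ps ξ 0 = 0 := by
  simp [ps]

theorem ps_succ {N : ℕ} (ξ : Fin (N + 1) → E) (i : ℕ) :
    ps ξ (i + 1) = ξ 0 + ps (Fin.tail ξ) i := by
  unfold ps
  rw [Fin.sum_univ_succ]
  simp [Fin.tail]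

/-- Additive functional of the walk. -/
noncomputable def A (f : E → ℝ≥0∞) {N : ℕ} (ξ : Fin N → E) (x : E) : ℝ≥0∞ :=
  ∑ i ∈ Finset.range (N + 1), f (x + ps ξ i)

theorem A_zero (f : E → ℝ≥0∞) (ξ : Fin 0 → E) (x : E) : A f ξ x = f x := by
  simp [A, ps_zero]

theorem A_succ (f : E → ℝ≥0∞) {N : ℕ} (ξ : Fin (N + 1) → E) (x : E) :
    A f ξ x = f x + A f (Fin.tail ξ) (x + ξ 0) := by
  unfold A
  rw [Finset.sum_range_succ' _ (N + 1)]
  rw [ps_zero, add_zero, add_comm]
  congr 1
  apply Finset.sum_congr rfl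
  intro i _
  rw [ps_succ, add_assoc]

theorem measurable_ps {N : ℕ} (i : ℕ) : Measurable (fun ξ : Fin N → E => ps ξ i) := by
  unfold ps
  apply Finset.measurable_sum
  intro l _
  by_cases h : l.val < i
  · simp only [h, if_true]
    exact measurable_pi_apply l
  · simp only [h, if_false]
    exact measurable_const

theorem measurable_A {f : E → ℝ≥0∞} (hf : Measurable f) (N : ℕ) :
    Measurable (fun p : (Fin N → E) × E => A f p.1 p.2) := by
  unfold A
  apply Finset.measurable_sum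
  intro i _
  exact hf.comp (measurable_snd.add ((measurable_ps i).comp measurable_fst))

theorem measurable_A' {f : E → ℝ≥0∞} (hf : Measurable f) (N : ℕ) (x : E) :
    Measurable (fun ξ : Fin N → E => A f ξ x) := by
  unfold A
  apply Finset.measurable_sum
  intro i _
  exact hf.comp (measurable_const.add (measurable_ps i))

theorem lintegral_pi_succ (γ : Measure E) [IsProbabilityMeasure γ] (N : ℕ)
    (g : E → (Fin N → E) → ℝ≥0∞) (hg : Measurable (Function.uncurry g)) :
    ∫⁻ ξ : Fin (N + 1) → E, g (ξ 0) (Fin.tail ξ) ∂(Measure.pi fun _ => γ) =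
      ∫⁻ z, ∫⁻ ξ', g z ξ' ∂(Measure.pi fun _ => γ) ∂γ := by
  have h := measurePreserving_piFinSuccAbove (fun _ : Fin (N + 1) => γ) 0
  have h2 := lintegral_prod (μ := γ) (ν := Measure.pi fun _ : Fin N => γ) (Function.uncurry g)
    hg.aemeasurable
  calc ∫⁻ ξ : Fin (N + 1) → E, g (ξ 0) (Fin.tail ξ) ∂(Measure.pi fun _ => γ)
      = ∫⁻ p, Function.uncurry g p ∂(γ.prod (Measure.pi fun _ : Fin N => γ)) := by
        rw [← h.lintegral_comp hg]
        rfl
    _ = ∫⁻ z, ∫⁻ ξ', g z ξ' ∂(Measure.pi fun _ => γ) ∂γ := h2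

theorem pow_add_le (a b : ℝ≥0∞) (k : ℕ) :
    (a + b) ^ (k + 1) ≤ b ^ (k + 1) + (k + 1 : ℕ) * (a * (a + b) ^ k) := by
  induction k with
  | zero => simp [add_comm]
  | succ k ih =>
    calc (a + b) ^ (k + 1 + 1) = (a + b) ^ (k + 1) * a + (a + b) ^ (k + 1) * b := by ring
      _ ≤ (a + b) ^ (k + 1) * a + (b ^ (k + 1) + (k + 1 : ℕ) * (a * (a + b) ^ k)) * b := by
          gcongr
      _ = b ^ (k + 1 + 1) + (a * (a + b) ^ (k + 1) + (k + 1 : ℕ) * (a * ((a + b) ^ k * b))) := by
          ring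
      _ ≤ b ^ (k + 1 + 1) +
            (a * (a + b) ^ (k + 1) + (k + 1 : ℕ) * (a * ((a + b) ^ k * (a + b)))) := by
          gcongr
          exact le_add_self
      _ = b ^ (k + 1 + 1) + (k + 1 + 1 : ℕ) * (a * (a + b) ^ (k + 1)) := by
          push_cast
          ring

/-- Khasminskii's lemma for random walks. -/
theorem khas (γ : Measure E) [IsProbabilityMeasure γ] (f : E → ℝ≥0∞) (hf : Measurable f)
    (α : ℝ≥0∞) (N : ℕ)
    (hα : ∀ n ≤ N, ∀ x, f x ≠ 0 → ∫⁻ ξ : Fin n → E, A f ξ x ∂(Measure.pi fun _ => γ) ≤ α)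
    (k : ℕ) :
    ∀ n ≤ N, ∀ x, ∫⁻ ξ : Fin n → E, (A f ξ x) ^ (k + 1) ∂(Measure.pi fun _ => γ) ≤
      (k + 1).factorial * α ^ k * ∫⁻ ξ : Fin n → E, A f ξ x ∂(Measure.pi fun _ => γ) := by
  induction k with
  | zero => intro n _ x; simp
  | succ k ihk =>
    intro n
    induction n with
    | zero =>
      intro hn x
      have h1 : ∀ ξ : Fin 0 → E, A f ξ x = f x := fun ξ => A_zero f ξ x
      simp only [h1]
      simp only [lintegral_const, measure_univ, mul_one]
      by_cases hx : f x = 0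
      · simp [hx]
      · have h2 := hα 0 hn x hx
        simp only [h1, lintegral_const, measure_univ, mul_one] at h2
        calc f x ^ (k + 1 + 1) = 1 * f x ^ (k + 1) * f x := by ring
          _ ≤ ((k + 1 + 1).factorial : ℝ≥0∞) * α ^ (k + 1) * f x := by
            gcongr
            exact_mod_cast Nat.one_le_iff_ne_zero.mpr (Nat.factorial_ne_zero _)
    | succ n ihn =>
      intro hn x
      have ihn' := ihn (by omega)
      set c : ℝ≥0∞ := ((k + 1 + 1).factorial : ℝ≥0∞) * α ^ (k + 1) with hc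
      have hmeasA : ∀ m, Measurable (fun p : (Fin m → E) × E => A f p.1 p.2) :=
        fun m => measurable_A hf m
      have hmA : Measurable (fun ξ : Fin (n + 1) → E => A f ξ x) :=
        (hmeasA (n + 1)).comp (measurable_id.prodMk measurable_const)
      have hmT : Measurable (Function.uncurry fun (z : E) (ξ' : Fin n → E) => A f ξ' (x + z)) :=
        (hmeasA n).comp (measurable_snd.prodMk (measurable_const.add measurable_fst))
      -- expression of the first moment
      have hm1 : ∫⁻ ξ : Fin (n + 1) → E, A f ξ x ∂(Measure.pi fun _ => γ) =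
          f x + ∫⁻ z, ∫⁻ ξ', A f ξ' (x + z) ∂(Measure.pi fun _ : Fin n => γ) ∂γ := by
        simp only [A_succ]
        rw [lintegral_add_left measurable_const]
        rw [lintegral_pi_succ γ n (fun z ξ' => A f ξ' (x + z)) hmT]
        simp
      have hT : ∫⁻ ξ : Fin (n + 1) → E, (A f (Fin.tail ξ) (x + ξ 0)) ^ (k + 1 + 1)
            ∂(Measure.pi fun _ => γ) ≤
          c * ∫⁻ z, ∫⁻ ξ', A f ξ' (x + z) ∂(Measure.pi fun _ : Fin n => γ) ∂γ := by
        rw [lintegral_pi_succ γ n (fun z ξ' => (A f ξ' (x + z)) ^ (k + 1 + 1)) (hmT.pow_const _)]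
        rw [← lintegral_const_mul]
        · exact lintegral_mono fun z => ihn' (x + z)
        · exact hmT.lintegral_prod_right'
      have hF : f x * ∫⁻ ξ : Fin (n + 1) → E, (A f ξ x) ^ (k + 1) ∂(Measure.pi fun _ => γ) ≤
          f x * (((k + 1).factorial : ℝ≥0∞) * α ^ (k + 1)) := by
        by_cases hx : f x = 0
        · simp [hx]
        · gcongr
          refine (ihk (n + 1) hn x).trans ?_
          calc ((k + 1).factorial : ℝ≥0∞) * α ^ k *
                ∫⁻ ξ : Fin (n + 1) → E, A f ξ x ∂(Measure.pi fun _ => γ)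
              ≤ ((k + 1).factorial : ℝ≥0∞) * α ^ k * α := by
                gcongr
                exact hα (n + 1) hn x hx
            _ = ((k + 1).factorial : ℝ≥0∞) * α ^ (k + 1) := by ring
      calc ∫⁻ ξ : Fin (n + 1) → E, (A f ξ x) ^ (k + 1 + 1) ∂(Measure.pi fun _ => γ)
          ≤ ∫⁻ ξ : Fin (n + 1) → E, ((A f (Fin.tail ξ) (x + ξ 0)) ^ (k + 1 + 1) +
              ((k + 1 + 1 : ℕ) : ℝ≥0∞) * (f x * (A f ξ x) ^ (k + 1))) ∂(Measure.pi fun _ => γ) := by
            apply lintegral_mono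
            intro ξ
            have := pow_add_le (f x) (A f (Fin.tail ξ) (x + ξ 0)) (k + 1)
            rw [← A_succ] at this
            exact this
        _ = ∫⁻ ξ : Fin (n + 1) → E, (A f (Fin.tail ξ) (x + ξ 0)) ^ (k + 1 + 1)
              ∂(Measure.pi fun _ => γ) +
              ((k + 1 + 1 : ℕ) : ℝ≥0∞) * (f x * ∫⁻ ξ : Fin (n + 1) → E, (A f ξ x) ^ (k + 1)
                ∂(Measure.pi fun _ => γ)) := by
            rw [lintegral_add_right]
            · congr 1
              rw [lintegral_const_mul, lintegral_const_mul]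
              · exact hmA.pow_const _
              · exact (hmA.pow_const _).const_mul _
            · exact ((hmA.pow_const _).const_mul _).const_mul _
        _ ≤ c * ∫⁻ z, ∫⁻ ξ', A f ξ' (x + z) ∂(Measure.pi fun _ : Fin n => γ) ∂γ +
              ((k + 1 + 1 : ℕ) : ℝ≥0∞) * (f x * (((k + 1).factorial : ℝ≥0∞) * α ^ (k + 1))) := by
            gcongr
        _ = c * (f x + ∫⁻ z, ∫⁻ ξ', A f ξ' (x + z) ∂(Measure.pi fun _ : Fin n => γ) ∂γ) := by
            rw [hc, Nat.factorial_succ (k + 1)]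
            push_cast
            ring
        _ = c * ∫⁻ ξ : Fin (n + 1) → E, A f ξ x ∂(Measure.pi fun _ => γ) := by
            rw [hm1]

end Pool.Agent.Helper93.Sheet
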