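import Mathlib
import Pool.Agent.Helper93.Sheet.Khas

set_option autoImplicit false

namespace Pool.Agent.Helper93.Sheet

open MeasureTheory ProbabilityTheory ENNReal NNReal

/-- Standard Gaussian measure with variance `w` in each coordinate. -/
noncomputable def G4 (w : ℝ≥0) : Measure E := Measure.pi (fun _ => gaussianReal 0 w)

instance (w : ℝ≥0) : IsProbabilityMeasure (G4 w) := by
  unfold G4; infer_instance

theorem charFunDual_G4 (w : ℝ≥0) (L : StrongDual ℝ E) :
    charFunDual (G4 w) L =
      ∏ i, Complex.exp (-((w : ℝ) * (L (Pi.single i 1)) ^ 2 / 2 : ℝ)) := by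
  unfold G4
  rw [charFunDual_pi]
  apply Finset.prod_congr rfl
  intro i _
  rw [charFunDual_eq_charFun_map_one]
  rw [gaussianReal_map_continuousLinearMap]
  rw [charFun_gaussianReal]
  congr 1
  simp only [ContinuousLinearMap.comp_apply, map_zero, ContinuousLinearMap.single_apply]
  push_cast
  rw [Real.coe_toNNReal _ (sq_nonneg _)]
  push_cast
  ring

theorem G4_zero : G4 0 = Measure.dirac (0 : E) := by
  apply Measure.ext_of_charFunDual
  ext L
  rw [charFunDual_G4]
  simp

theorem G4_conv (v w : ℝ≥0) :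
    ((G4 v).prod (G4 w)).map (fun p => p.1 + p.2) = G4 (v + w) := by
  obtain ⟨K, hK⟩ : ∃ K : E × E →L[ℝ] E, ∀ p, K p = p.1 + p.2 :=
    ⟨ContinuousLinearMap.fst ℝ E E + ContinuousLinearMap.snd ℝ E E, fun p => rfl⟩
  have h : (fun p : E × E => p.1 + p.2) = ⇑K := by
    ext1 p
    rw [hK]
  rw [h]
  apply Measure.ext_of_charFunDual
  ext L
  rw [charFunDual_map, charFunDual_prod, charFunDual_G4, charFunDual_G4, charFunDual_G4]
  rw [← Finset.prod_mul_distrib]
  apply Finset.prod_congr rfl
  intro i _
  rw [← Complex.exp_add]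
  congr 1
  have h1 : (L.comp K).comp (ContinuousLinearMap.inl ℝ E E) = L := by
    ext x
    simp [hK]
  have h2 : (L.comp K).comp (ContinuousLinearMap.inr ℝ E E) = L := by
    ext x
    simp [hK]
  rw [h1, h2]
  push_cast
  ring

theorem lintegral_G4_conv (v w : ℝ≥0) (g : E → ℝ≥0∞) (hg : Measurable g) :
    ∫⁻ z, ∫⁻ y, g (z + y) ∂(G4 w) ∂(G4 v) = ∫⁻ y, g y ∂(G4 (v + w)) := by
  rw [← G4_conv, lintegral_map hg (by fun_prop)]
  rw [lintegral_prod _ (by fun_prop)]

theorem lintegral_ps (v : ℝ≥0) (g : E → ℝ≥0∞) (hg : Measurable g) (n : ℕ) :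
    ∀ i ≤ n, ∀ x, ∫⁻ ξ : Fin n → E, g (x + ps ξ i) ∂(Measure.pi fun _ => G4 v) =
      ∫⁻ y, g (x + y) ∂(G4 (i * v)) := by
  induction n with
  | zero =>
    intro i hi x
    have hi0 : i = 0 := by omega
    subst hi0
    simp only [ps_zero, Nat.cast_zero, zero_mul]
    rw [G4_zero, lintegral_dirac']
    · simp
    · exact hg.comp (measurable_const.add measurable_id)
  | succ n ih =>
    intro i hi x
    rcases i with _ | i
    · simp only [ps_zero, Nat.cast_zero, zero_mul]
      rw [G4_zero, lintegral_dirac']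
      · simp
      · exact hg.comp (measurable_const.add measurable_id)
    · simp only [ps_succ]
      rw [lintegral_pi_succ (G4 v) n (fun z ξ' => g (x + (z + ps ξ' i)))]
      · have : ∀ z, ∫⁻ ξ' : Fin n → E, g (x + (z + ps ξ' i)) ∂(Measure.pi fun _ => G4 v) =
            ∫⁻ y, g (x + (z + y)) ∂(G4 (i * v)) := by
          intro z
          have := ih i (by omega) (x + z)
          simp only [add_assoc] at this
          exact this
        simp only [this]
        rw [lintegral_G4_conv v (i * v) (fun y => g (x + y)) (by fun_prop)]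
        congr 2
        push_cast
        ring
      · have hps : Measurable fun p : E × (Fin n → E) => ps p.2 i :=
          (measurable_ps i).comp measurable_snd
        exact hg.comp (measurable_const.add (measurable_fst.add hps))

theorem lintegral_A (v : ℝ≥0) (g : E → ℝ≥0∞) (hg : Measurable g) (n : ℕ) (x : E) :
    ∫⁻ ξ : Fin n → E, A g ξ x ∂(Measure.pi fun _ => G4 v) =
      ∑ i ∈ Finset.range (n + 1), ∫⁻ y, g (x + y) ∂(G4 (i * v)) := by
  unfold A
  rw [lintegral_finsetSum]
  · apply Finset.sum_congr rfl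
    intro i hi
    exact lintegral_ps v g hg n i (by simpa [Nat.lt_succ_iff] using hi) x
  · intro i _
    exact hg.comp (measurable_const.add (measurable_ps i))

end Pool.Agent.Helper93.Sheet
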