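import Mathlib
import Pool.Agent.Helper93.Sheet.Gauss

set_option autoImplicit false

namespace Pool.Agent.Helper93.Sheet

open MeasureTheory ProbabilityTheory ENNReal NNReal

theorem gauss_interval_le (w : ℝ≥0) (hw : w ≠ 0) (u ρ c : ℝ) (hc : 0 ≤ c)
    (h : ∀ x ∈ Set.Icc (u - ρ) (u + ρ), gaussianPDFReal 0 w x ≤ c) :
    gaussianReal 0 w (Set.Icc (u - ρ) (u + ρ)) ≤ ENNReal.ofReal (c * (2 * ρ)) := by
  rw [gaussianReal_apply 0 hw]
  calc ∫⁻ x in Set.Icc (u - ρ) (u + ρ), gaussianPDF 0 w x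
      ≤ ∫⁻ x in Set.Icc (u - ρ) (u + ρ), ENNReal.ofReal c := by
        apply setLIntegral_mono' measurableSet_Icc
        intro x hx
        exact ENNReal.ofReal_le_ofReal (h x hx)
    _ = ENNReal.ofReal (c * (2 * ρ)) := by
        rw [setLIntegral_const, Real.volume_Icc, ← ENNReal.ofReal_mul hc]
        congr 1
        ring

theorem two_le_sqrt_two_pi : 2 ≤ Real.sqrt (2 * Real.pi) := by
  apply Real.le_sqrt_of_sq_le
  nlinarith [Real.pi_gt_three]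

theorem inv_sqrt_le (w : ℝ≥0) (hw : w ≠ 0) (ρ : ℝ) (hρ : 0 < ρ) :
    (Real.sqrt (2 * Real.pi * w))⁻¹ * (2 * ρ) ≤ ρ / Real.sqrt w := by
  have hw' : (0 : ℝ) < w := by positivity
  have hs : 0 < Real.sqrt w := Real.sqrt_pos.mpr hw'
  rw [Real.sqrt_mul (by positivity)]
  rw [inv_mul_eq_div, div_le_div_iff₀ (by positivity) hs]
  have := two_le_sqrt_two_pi
  nlinarith [mul_pos hρ hs]

theorem J_le_one (w : ℝ≥0) (s : Set ℝ) : gaussianReal 0 w s ≤ 1 := prob_le_one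

theorem J_le_two (w : ℝ≥0) (hw : w ≠ 0) (u ρ : ℝ) (hρ : 0 < ρ) :
    gaussianReal 0 w (Set.Icc (u - ρ) (u + ρ)) ≤ ENNReal.ofReal (ρ / Real.sqrt w) := by
  refine (gauss_interval_le w hw u ρ (Real.sqrt (2 * Real.pi * w))⁻¹ (by positivity) ?_).trans ?_
  · intro x _
    rw [gaussianPDFReal_def]
    have h1 : Real.exp (-(x - 0) ^ 2 / (2 * w)) ≤ 1 := by
      apply Real.exp_le_one_iff.mpr
      have : 0 ≤ (x - 0) ^ 2 / (2 * (w : ℝ)) := by positivity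
      rw [neg_div]
      linarith
    have h2 : 0 ≤ (Real.sqrt (2 * Real.pi * w))⁻¹ := by positivity
    calc (Real.sqrt (2 * Real.pi * w))⁻¹ * Real.exp (-(x - 0) ^ 2 / (2 * w))
        ≤ (Real.sqrt (2 * Real.pi * w))⁻¹ * 1 := by gcongr
      _ = _ := mul_one _
  · exact ENNReal.ofReal_le_ofReal (inv_sqrt_le w hw ρ hρ)

theorem exp_bound (w u : ℝ) (hw : 0 < w) :
    Real.exp (-u ^ 2 / (8 * w)) ≤ 128 * (w / (w + u ^ 2)) ^ 2 := by
  set t : ℝ := u ^ 2 / (8 * w) with ht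
  have ht0 : 0 ≤ t := by positivity
  have h1 : -u ^ 2 / (8 * w) = -t := by rw [ht]; ring
  have h2 : w / (w + u ^ 2) = 1 / (1 + 8 * t) := by
    rw [ht]
    field_simp
  rw [h1, h2, Real.exp_neg]
  have h3 : 1 + t + t ^ 2 / 2 ≤ Real.exp t := Real.quadratic_le_exp_of_nonneg ht0
  have h4 : 0 < Real.exp t := Real.exp_pos t
  rw [div_pow, one_pow, mul_one_div, inv_eq_one_div, div_le_div_iff₀ h4 (by positivity)]
  nlinarith [sq_nonneg t, sq_nonneg (t - 1)]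

theorem J_le_three (w : ℝ≥0) (hw : w ≠ 0) (u ρ : ℝ) (hρ : 0 < ρ) (hu : 2 * ρ ≤ |u|) :
    gaussianReal 0 w (Set.Icc (u - ρ) (u + ρ)) ≤
      ENNReal.ofReal (ρ / Real.sqrt w * (128 * (w / (w + u ^ 2)) ^ 2)) := by
  have hw' : (0 : ℝ) < w := by positivity
  refine (gauss_interval_le w hw u ρ
    ((Real.sqrt (2 * Real.pi * w))⁻¹ * (128 * (w / (w + u ^ 2)) ^ 2)) (by positivity) ?_).trans ?_
  · intro x hx
    rw [gaussianPDFReal_def]
    have h2 : 0 ≤ (Real.sqrt (2 * Real.pi * w))⁻¹ := by positivity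
    have h3 : |u| / 2 ≤ |x| := by
      have h4 : |u| ≤ |x| + ρ := by
        have : |u - x| ≤ ρ := by
          rw [abs_le]
          constructor <;> linarith [hx.1, hx.2]
        calc |u| = |x + (u - x)| := by ring_nf
          _ ≤ |x| + |u - x| := abs_add_le _ _
          _ ≤ |x| + ρ := by linarith
      linarith
    have h5 : u ^ 2 / 4 ≤ x ^ 2 := by
      have : (|u| / 2) ^ 2 ≤ |x| ^ 2 := by gcongr
      rw [sq_abs] at this
      nlinarith [sq_abs u]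
    have h6 : Real.exp (-(x - 0) ^ 2 / (2 * w)) ≤ Real.exp (-u ^ 2 / (8 * w)) := by
      apply Real.exp_le_exp.mpr
      rw [div_le_div_iff₀ (by positivity) (by positivity)]
      nlinarith
    exact mul_le_mul_of_nonneg_left (h6.trans (exp_bound w u hw')) h2
  · apply ENNReal.ofReal_le_ofReal
    have := inv_sqrt_le w hw ρ hρ
    calc (Real.sqrt (2 * Real.pi * w))⁻¹ * (128 * (w / (w + u ^ 2)) ^ 2) * (2 * ρ)
        = (Real.sqrt (2 * Real.pi * w))⁻¹ * (2 * ρ) * (128 * (w / (w + u ^ 2)) ^ 2) := by ring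
      _ ≤ ρ / Real.sqrt w * (128 * (w / (w + u ^ 2)) ^ 2) := by gcongr

theorem real_ineq_far (σ ρ U m : ℝ) (hσ : 0 < σ) (hρ : 0 < ρ) (hU : 2 * ρ ≤ U) (hm0 : 0 ≤ m)
    (hm1 : m ≤ 1) (hm2 : m ≤ ρ / σ) :
    ρ / σ * (128 * (σ ^ 2 / (σ ^ 2 + U ^ 2)) ^ 2) * m ^ 3 ≤
      200 * (ρ ^ 2 / (σ ^ 2 + ρ ^ 2 + U ^ 2)) ^ 2 := by
  have hU0 : 0 < U := by linarith
  have key : 128 * ρ ^ 4 / (σ ^ 2 + U ^ 2) ^ 2 ≤ 200 * (ρ ^ 2 / (σ ^ 2 + ρ ^ 2 + U ^ 2)) ^ 2 := by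
    rw [div_pow, mul_div_assoc', div_le_div_iff₀ (by positivity) (by positivity)]
    have h1 : σ ^ 2 + ρ ^ 2 + U ^ 2 ≤ 5 / 4 * (σ ^ 2 + U ^ 2) := by nlinarith
    have h2 : (σ ^ 2 + ρ ^ 2 + U ^ 2) ^ 2 ≤ (5 / 4 * (σ ^ 2 + U ^ 2)) ^ 2 := by gcongr
    calc 128 * ρ ^ 4 * (σ ^ 2 + ρ ^ 2 + U ^ 2) ^ 2
        ≤ 128 * ρ ^ 4 * (5 / 4 * (σ ^ 2 + U ^ 2)) ^ 2 := by gcongr
      _ = 200 * (ρ ^ 2) ^ 2 * (σ ^ 2 + U ^ 2) ^ 2 := by ring
  refine le_trans ?_ key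
  rcases le_total ρ σ with h | h
  · have hm3 : m ^ 3 ≤ (ρ / σ) ^ 3 := by gcongr
    calc ρ / σ * (128 * (σ ^ 2 / (σ ^ 2 + U ^ 2)) ^ 2) * m ^ 3
        ≤ ρ / σ * (128 * (σ ^ 2 / (σ ^ 2 + U ^ 2)) ^ 2) * (ρ / σ) ^ 3 := by gcongr
      _ = 128 * ρ ^ 4 / (σ ^ 2 + U ^ 2) ^ 2 := by field_simp
  · have hm3 : m ^ 3 ≤ 1 := pow_le_one₀ hm0 hm1
    calc ρ / σ * (128 * (σ ^ 2 / (σ ^ 2 + U ^ 2)) ^ 2) * m ^ 3
        ≤ ρ / σ * (128 * (σ ^ 2 / (σ ^ 2 + U ^ 2)) ^ 2) * 1 := by gcongr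
      _ = 128 * (ρ * σ ^ 3) / (σ ^ 2 + U ^ 2) ^ 2 := by field_simp
      _ ≤ 128 * (ρ * ρ ^ 3) / (σ ^ 2 + U ^ 2) ^ 2 := by gcongr
      _ = 128 * ρ ^ 4 / (σ ^ 2 + U ^ 2) ^ 2 := by ring

theorem real_ineq_near (σ ρ U m : ℝ) (hσ : 0 < σ) (hρ : 0 < ρ) (hU0 : 0 ≤ U) (hU : U ≤ 2 * ρ)
    (hm0 : 0 ≤ m) (hm1 : m ≤ 1) (hm2 : m ≤ ρ / σ) :
    m ^ 4 ≤ 200 * (ρ ^ 2 / (σ ^ 2 + ρ ^ 2 + U ^ 2)) ^ 2 := by
  have hUU : U ^ 2 ≤ 4 * ρ ^ 2 := by nlinarith
  rcases le_total ρ σ with h | h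
  · have hm3 : m ^ 4 ≤ (ρ / σ) ^ 4 := by gcongr
    refine hm3.trans ?_
    rw [div_pow, div_pow, mul_div_assoc', div_le_div_iff₀ (by positivity) (by positivity)]
    have hs : ρ ^ 2 ≤ σ ^ 2 := by gcongr
    have h1 : σ ^ 2 + ρ ^ 2 + U ^ 2 ≤ 6 * σ ^ 2 := by linarith
    have h2 : (σ ^ 2 + ρ ^ 2 + U ^ 2) ^ 2 ≤ (6 * σ ^ 2) ^ 2 := by gcongr
    calc ρ ^ 4 * (σ ^ 2 + ρ ^ 2 + U ^ 2) ^ 2 ≤ ρ ^ 4 * (6 * σ ^ 2) ^ 2 := by gcongr
      _ = 36 * (ρ ^ 4 * σ ^ 4) := by ring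
      _ ≤ 200 * (ρ ^ 4 * σ ^ 4) := by
        have : 0 ≤ ρ ^ 4 * σ ^ 4 := by positivity
        linarith
      _ = 200 * (ρ ^ 2) ^ 2 * σ ^ 4 := by ring
  · have hm3 : m ^ 4 ≤ 1 := pow_le_one₀ hm0 hm1
    refine hm3.trans ?_
    rw [div_pow, mul_div_assoc', le_div_iff₀ (by positivity)]
    have hs : σ ^ 2 ≤ ρ ^ 2 := by gcongr
    have h1 : σ ^ 2 + ρ ^ 2 + U ^ 2 ≤ 6 * ρ ^ 2 := by linarith
    have h2 : (σ ^ 2 + ρ ^ 2 + U ^ 2) ^ 2 ≤ (6 * ρ ^ 2) ^ 2 := by gcongr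
    calc 1 * (σ ^ 2 + ρ ^ 2 + U ^ 2) ^ 2 ≤ (6 * ρ ^ 2) ^ 2 := by linarith
      _ ≤ 200 * (ρ ^ 2) ^ 2 := by nlinarith [sq_nonneg (ρ ^ 2)]

theorem exists_norm_eq (u : E) : ∃ c, |u c| = ‖u‖ := by
  obtain ⟨c, hc⟩ := Finite.exists_max (fun c => |u c|)
  refine ⟨c, le_antisymm (norm_le_pi_norm u c) ?_⟩
  exact (pi_norm_le_iff_of_nonneg (abs_nonneg _)).mpr hc

/-- The basic small-ball estimate. -/
theorem G4_ball (w : ℝ≥0) (u : E) (ρ : ℝ) (hρ : 0 < ρ) :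
    G4 w (Metric.closedBall u ρ) ≤
      ENNReal.ofReal (200 * (ρ ^ 2 / (w + ρ ^ 2 + ‖u‖ ^ 2)) ^ 2) := by
  by_cases hw : w = 0
  · subst hw
    rw [G4_zero]
    by_cases hu : ‖u‖ ≤ ρ
    · refine prob_le_one.trans ?_
      rw [← ENNReal.ofReal_one]
      apply ENNReal.ofReal_le_ofReal
      have h1 : ‖u‖ ^ 2 ≤ ρ ^ 2 := by gcongr
      rw [div_pow, mul_div_assoc', le_div_iff₀ (by positivity)]
      simp only [NNReal.coe_zero, zero_add]
      have h2 : (ρ ^ 2 + ‖u‖ ^ 2) ^ 2 ≤ (ρ ^ 2 + ρ ^ 2) ^ 2 := by gcongr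
      nlinarith [sq_nonneg (ρ ^ 2)]
    · have : (0 : E) ∉ Metric.closedBall u ρ := by
        rw [Metric.mem_closedBall, dist_zero_left]
        exact hu
      rw [Measure.dirac_apply' _ measurableSet_closedBall]
      simp [this]
  · have hw' : (0 : ℝ) < w := by positivity
    set σ : ℝ := Real.sqrt w with hσ
    have hσ0 : 0 < σ := Real.sqrt_pos.mpr hw'
    have hσ2 : σ ^ 2 = w := Real.sq_sqrt hw'.le
    set m : ℝ := min 1 (ρ / σ) with hm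
    have hm0 : 0 ≤ m := by positivity
    have hm1 : m ≤ 1 := min_le_left _ _
    have hm2 : m ≤ ρ / σ := min_le_right _ _
    have hJm : ∀ c, gaussianReal 0 w (Set.Icc (u c - ρ) (u c + ρ)) ≤ ENNReal.ofReal m := by
      intro c
      rw [hm, ENNReal.ofReal_min]
      refine le_min ?_ (J_le_two w hw (u c) ρ hρ)
      rw [ENNReal.ofReal_one]
      exact prob_le_one
    have hball : G4 w (Metric.closedBall u ρ) =
        ∏ c, gaussianReal 0 w (Set.Icc (u c - ρ) (u c + ρ)) := by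
      unfold G4
      rw [closedBall_pi u hρ.le, Measure.pi_pi]
      apply Finset.prod_congr rfl
      intro c _
      rw [Real.closedBall_eq_Icc]
    rw [hball]
    obtain ⟨c0, hc0⟩ := exists_norm_eq u
    rcases le_total (2 * ρ) ‖u‖ with hfar | hnear
    · rw [← Finset.mul_prod_erase Finset.univ _ (Finset.mem_univ c0)]
      have h1 : ∏ c ∈ Finset.univ.erase c0, gaussianReal 0 w (Set.Icc (u c - ρ) (u c + ρ)) ≤
          ENNReal.ofReal m ^ 3 := by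
        have h2 : (Finset.univ.erase c0).card = 3 := by simp
        rw [← h2]
        exact Finset.prod_le_pow_card _ _ _ (fun c _ => hJm c)
      have h3 := J_le_three w hw (u c0) ρ hρ (by rw [hc0]; exact hfar)
      calc gaussianReal 0 w (Set.Icc (u c0 - ρ) (u c0 + ρ)) *
            ∏ c ∈ Finset.univ.erase c0, gaussianReal 0 w (Set.Icc (u c - ρ) (u c + ρ))
          ≤ ENNReal.ofReal (ρ / Real.sqrt w * (128 * (w / (w + (u c0) ^ 2)) ^ 2)) *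
            ENNReal.ofReal m ^ 3 := by gcongr
        _ = ENNReal.ofReal (ρ / σ * (128 * (σ ^ 2 / (σ ^ 2 + ‖u‖ ^ 2)) ^ 2) * m ^ 3) := by
            rw [← ENNReal.ofReal_pow hm0, ← ENNReal.ofReal_mul (by positivity)]
            rw [← hc0, sq_abs, hσ2]
        _ ≤ _ := by
            apply ENNReal.ofReal_le_ofReal
            have := real_ineq_far σ ρ ‖u‖ m hσ0 hρ hfar hm0 hm1 hm2
            rw [hσ2] at this ⊢
            exact this
    · calc ∏ c, gaussianReal 0 w (Set.Icc (u c - ρ) (u c + ρ))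
          ≤ ENNReal.ofReal m ^ (Finset.univ : Finset (Fin 4)).card :=
            Finset.prod_le_pow_card _ _ _ (fun c _ => hJm c)
        _ = ENNReal.ofReal (m ^ 4) := by
            rw [ENNReal.ofReal_pow hm0]
            simp
        _ ≤ _ := by
            apply ENNReal.ofReal_le_ofReal
            have := real_ineq_near σ ρ ‖u‖ m hσ0 hρ (norm_nonneg _) hnear hm0 hm1 hm2
            rw [hσ2] at this
            exact this

theorem sum_aux (v B : ℝ) (hv : 0 < v) (hB : 0 < B) (n : ℕ) :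
    ∑ i ∈ Finset.range (n + 1), (1 / (i * v + B)) ^ 2 ≤
      1 / B ^ 2 + (1 / v) * (1 / B - 1 / (n * v + B)) := by
  induction n with
  | zero => simp
  | succ n ih =>
    rw [Finset.sum_range_succ]
    have h1 : (1 / (((n + 1 : ℕ) : ℝ) * v + B)) ^ 2 ≤
        (1 / v) * (1 / (n * v + B) - 1 / (((n + 1 : ℕ) : ℝ) * v + B)) := by
      push_cast
      have hp : 0 < (n : ℝ) * v + B := by positivity
      have hq : 0 < ((n : ℝ) + 1) * v + B := by positivity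
      have h2 : (1 / v) * (1 / ((n : ℝ) * v + B) - 1 / (((n : ℝ) + 1) * v + B)) =
          1 / ((n * v + B) * ((n + 1) * v + B)) := by
        field_simp
        ring
      rw [h2, div_pow, one_pow]
      apply one_div_le_one_div_of_le (by positivity)
      nlinarith
    calc _ ≤ (1 / B ^ 2 + (1 / v) * (1 / B - 1 / (n * v + B))) +
          (1 / v) * (1 / (n * v + B) - 1 / (((n + 1 : ℕ) : ℝ) * v + B)) := by linarith
      _ = _ := by ring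

/-- Potential bound. -/
theorem potential (v : ℝ≥0) (hv : v ≠ 0) (u : E) (ρ : ℝ) (hρ : 0 < ρ) (n : ℕ) :
    ∑ i ∈ Finset.range (n + 1), G4 (i * v) (Metric.closedBall u ρ) ≤
      ENNReal.ofReal (200 * (1 + ρ ^ 2 / v) * (ρ ^ 2 / (ρ ^ 2 + ‖u‖ ^ 2))) := by
  have hv' : (0 : ℝ) < v := by positivity
  calc ∑ i ∈ Finset.range (n + 1), G4 (i * v) (Metric.closedBall u ρ)
      ≤ ∑ i ∈ Finset.range (n + 1),
          ENNReal.ofReal (200 * (ρ ^ 2 / (((i * v : ℝ≥0) : ℝ) + ρ ^ 2 + ‖u‖ ^ 2)) ^ 2) := by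
        apply Finset.sum_le_sum
        intro i _
        exact G4_ball (i * v) u ρ hρ
    _ = ENNReal.ofReal (∑ i ∈ Finset.range (n + 1),
          (200 * (ρ ^ 2 / (((i * v : ℝ≥0) : ℝ) + ρ ^ 2 + ‖u‖ ^ 2)) ^ 2)) := by
        rw [ENNReal.ofReal_sum_of_nonneg]
        intro i _
        positivity
    _ ≤ _ := by
        apply ENNReal.ofReal_le_ofReal
        set B : ℝ := ρ ^ 2 + ‖u‖ ^ 2 with hB
        have hB0 : 0 < B := by positivity
        have hρB : ρ ^ 2 ≤ B := by rw [hB]; linarith [sq_nonneg ‖u‖]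
        have h1 : ∀ i : ℕ, 200 * (ρ ^ 2 / (((i * v : ℝ≥0) : ℝ) + ρ ^ 2 + ‖u‖ ^ 2)) ^ 2 =
            200 * ρ ^ 4 * (1 / (i * v + B)) ^ 2 := by
          intro i
          push_cast
          rw [hB, div_pow, div_pow]
          ring
        simp only [h1]
        rw [← Finset.mul_sum]
        have h2 := sum_aux v B hv' hB0 n
        have h3 : 0 ≤ 1 / ((n : ℝ) * v + B) := by positivity
        have h4 : 1 / B ^ 2 + (1 / (v : ℝ)) * (1 / B - 1 / (n * v + B)) ≤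
            1 / B ^ 2 + (1 / v) * (1 / B) := by
          have : 0 ≤ 1 / (v : ℝ) := by positivity
          nlinarith
        calc 200 * ρ ^ 4 * ∑ i ∈ Finset.range (n + 1), (1 / ((i : ℝ) * v + B)) ^ 2
            ≤ 200 * ρ ^ 4 * (1 / B ^ 2 + (1 / v) * (1 / B)) := by
              gcongr
              exact h2.trans h4
          _ = 200 * (ρ ^ 2 / B + ρ ^ 2 / v) * (ρ ^ 2 / B) := by
              field_simp
          _ ≤ 200 * (1 + ρ ^ 2 / v) * (ρ ^ 2 / B) := by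
              gcongr
              rw [div_le_one hB0]
              exact hρB

end Pool.Agent.Helper93.Sheet
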