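import Mathlib
import Pool.Agent.Helper93.Sheet.Pot

set_option autoImplicit false

namespace Pool.Agent.Helper93.Sheet

open MeasureTheory ProbabilityTheory ENNReal NNReal

/-- Indicator of the closed ball of radius `r` at the origin. -/
noncomputable def ind (r : ℝ) : E → ℝ≥0∞ := Set.indicator (Metric.closedBall 0 r) 1

theorem measurable_ind (r : ℝ) : Measurable (ind r) :=
  measurable_one.indicator measurableSet_closedBall

/-- The potential kernel `ρ² / (ρ² + |y|²)`. -/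
noncomputable def phi (ρ : ℝ) (y : E) : ℝ≥0∞ := ENNReal.ofReal (ρ ^ 2 / (ρ ^ 2 + ‖y‖ ^ 2))

theorem measurable_phi (ρ : ℝ) : Measurable (phi ρ) := by
  unfold phi
  fun_prop

theorem phi_neg (ρ : ℝ) (y : E) : phi ρ (-y) = phi ρ y := by
  simp [phi]

theorem lintegral_A_ind (v : ℝ≥0) (r : ℝ) (n : ℕ) (x : E) :
    ∫⁻ ξ : Fin n → E, A (ind r) ξ x ∂(Measure.pi fun _ => G4 v) =
      ∑ i ∈ Finset.range (n + 1), G4 (i * v) (Metric.closedBall (-x) r) := by
  rw [lintegral_A v (ind r) (measurable_ind r) n x]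
  apply Finset.sum_congr rfl
  intro i _
  rw [← lintegral_indicator_one measurableSet_closedBall]
  apply lintegral_congr
  intro y
  unfold ind
  by_cases h : x + y ∈ Metric.closedBall (0 : E) r
  · have h' : y ∈ Metric.closedBall (-x) r := by
      rw [Metric.mem_closedBall] at h ⊢
      rw [dist_eq_norm] at h ⊢
      simpa [add_comm] using h
    rw [Set.indicator_of_mem h, Set.indicator_of_mem h']
    rfl
  · have h' : y ∉ Metric.closedBall (-x) r := by
      rw [Metric.mem_closedBall] at h ⊢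
      rw [dist_eq_norm] at h ⊢
      simpa [add_comm] using h
    rw [Set.indicator_of_notMem h, Set.indicator_of_notMem h']

theorem lintegral_A_ind_le (v : ℝ≥0) (hv : v ≠ 0) (r : ℝ) (hr : 0 < r) (n : ℕ) (x : E) :
    ∫⁻ ξ : Fin n → E, A (ind r) ξ x ∂(Measure.pi fun _ => G4 v) ≤
      ENNReal.ofReal (200 * (1 + r ^ 2 / v)) * phi r x := by
  rw [lintegral_A_ind]
  refine (potential v hv (-x) r hr n).trans ?_
  rw [phi, ← ENNReal.ofReal_mul (by positivity), norm_neg]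

theorem phi_le_one (ρ : ℝ) (y : E) : phi ρ y ≤ 1 := by
  unfold phi
  rw [← ENNReal.ofReal_one]
  apply ENNReal.ofReal_le_ofReal
  apply div_le_one_of_le₀ (by linarith [sq_nonneg ‖y‖]) (by positivity)

/-- Linearity of the additive functional. -/
theorem A_sum {ι : Type} (s : Finset ι) (c : ι → ℝ≥0∞) (f : ι → E → ℝ≥0∞) {N : ℕ}
    (ξ : Fin N → E) (x : E) :
    A (fun y => ∑ l ∈ s, c l * f l y) ξ x = ∑ l ∈ s, c l * A (f l) ξ x := by
  unfold A
  rw [Finset.sum_comm]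
  apply Finset.sum_congr rfl
  intro l _
  rw [Finset.mul_sum]

theorem A_mono {f g : E → ℝ≥0∞} (h : ∀ y, f y ≤ g y) {N : ℕ} (ξ : Fin N → E) (x : E) :
    A f ξ x ≤ A g ξ x :=
  Finset.sum_le_sum fun _ _ => h _

theorem phi_le_sum (ρ : ℝ) (hρ : 0 < ρ) (L : ℕ) (y : E) :
    phi ρ y ≤ (∑ l ∈ Finset.range (L + 1), ENNReal.ofReal (4 * (1 / 4) ^ l) * ind (2 ^ l * ρ) y) +
      ENNReal.ofReal ((1 / 4) ^ L) := by
  by_cases hex : ∃ l ∈ Finset.range (L + 1), ‖y‖ ≤ 2 ^ l * ρ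
  · -- take the least such l
    classical
    have hex' : ∃ l, ‖y‖ ≤ 2 ^ l * ρ := by
      obtain ⟨l, _, hl⟩ := hex
      exact ⟨l, hl⟩
    set l0 := Nat.find hex' with hl0
    have hl0s : ‖y‖ ≤ 2 ^ l0 * ρ := Nat.find_spec hex'
    have hl0m : l0 ∈ Finset.range (L + 1) := by
      obtain ⟨l, hl, hl'⟩ := hex
      rw [Finset.mem_range] at hl ⊢
      exact lt_of_le_of_lt (Nat.find_min' hex' hl') hl
    have h1 : phi ρ y ≤ ENNReal.ofReal (4 * (1 / 4) ^ l0) * ind (2 ^ l0 * ρ) y := by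
      have hind : ind (2 ^ l0 * ρ) y = 1 := by
        unfold ind
        rw [Set.indicator_of_mem]
        · rfl
        · rw [mem_closedBall_zero_iff]
          exact hl0s
      rw [hind, mul_one]
      rcases Nat.eq_zero_or_pos l0 with h0 | hpos
      · rw [h0]
        refine (phi_le_one ρ y).trans ?_
        rw [← ENNReal.ofReal_one]
        apply ENNReal.ofReal_le_ofReal
        norm_num
      · obtain ⟨j, hj⟩ : ∃ j, l0 = j + 1 := ⟨l0 - 1, by omega⟩
        have hlt : ¬ ‖y‖ ≤ 2 ^ j * ρ := Nat.find_min hex' (by omega)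
        push Not at hlt
        unfold phi
        apply ENNReal.ofReal_le_ofReal
        rw [hj, pow_succ]
        have h2 : (2 ^ j * ρ) ^ 2 ≤ ‖y‖ ^ 2 := by gcongr
        have h3 : (2 ^ j * ρ) ^ 2 = 4 ^ j * ρ ^ 2 := by
          rw [mul_pow, ← pow_mul, mul_comm j 2, pow_mul]
          norm_num
        rw [h3] at h2
        rw [div_le_iff₀ (by positivity)]
        have h4 : (4 : ℝ) * ((1 / 4) ^ j * (1 / 4)) * 4 ^ j = 1 := by
          rw [one_div, inv_pow]
          field_simp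
        have h5 : (0 : ℝ) ≤ 4 * ((1 / 4) ^ j * (1 / 4)) := by positivity
        calc ρ ^ 2 = 4 * ((1 / 4) ^ j * (1 / 4)) * (4 ^ j * ρ ^ 2) := by
              rw [← mul_assoc, h4, one_mul]
          _ ≤ 4 * ((1 / 4) ^ j * (1 / 4)) * (ρ ^ 2 + ‖y‖ ^ 2) := by
              gcongr
              linarith [sq_nonneg ρ]
    refine h1.trans ?_
    refine le_trans ?_ le_self_add
    exact Finset.single_le_sum
      (f := fun l => ENNReal.ofReal (4 * (1 / 4) ^ l) * ind (2 ^ l * ρ) y)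
      (fun _ _ => zero_le) hl0m
  · push Not at hex
    have hlt := hex L (by simp)
    refine le_trans ?_ le_add_self
    unfold phi
    apply ENNReal.ofReal_le_ofReal
    have h2 : (2 ^ L * ρ) ^ 2 ≤ ‖y‖ ^ 2 := by gcongr
    have h3 : (2 ^ L * ρ) ^ 2 = 4 ^ L * ρ ^ 2 := by
      rw [mul_pow, ← pow_mul, mul_comm L 2, pow_mul]
      norm_num
    rw [h3] at h2
    rw [div_le_iff₀ (by positivity)]
    have h4 : ((1 : ℝ) / 4) ^ L * 4 ^ L = 1 := by
      rw [← mul_pow]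
      norm_num
    calc ρ ^ 2 = (1 / 4) ^ L * (4 ^ L * ρ ^ 2) := by
          rw [← mul_assoc, h4, one_mul]
      _ ≤ (1 / 4) ^ L * (ρ ^ 2 + ‖y‖ ^ 2) := by
          gcongr
          linarith [sq_nonneg ρ]

theorem A_phi_le (ρ : ℝ) (hρ : 0 < ρ) (L n : ℕ) (hL : ((n + 1 : ℕ) : ℝ) ≤ 4 ^ L) (x : E)
    (ξ : Fin n → E) :
    A (phi ρ) ξ x ≤
      (∑ l ∈ Finset.range (L + 1), ENNReal.ofReal (4 * (1 / 4) ^ l) * A (ind (2 ^ l * ρ)) ξ x) + 1 := by
  have h0 : ((n + 1 : ℕ) : ℝ≥0∞) * ENNReal.ofReal ((1 / 4) ^ L) ≤ 1 := by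
    have h2 : ((n + 1 : ℕ) : ℝ≥0∞) = ENNReal.ofReal ((n + 1 : ℕ) : ℝ) := by
      rw [ENNReal.ofReal_natCast]
    rw [h2, ← ENNReal.ofReal_mul (Nat.cast_nonneg _), ← ENNReal.ofReal_one]
    apply ENNReal.ofReal_le_ofReal
    calc ((n + 1 : ℕ) : ℝ) * (1 / 4) ^ L ≤ 4 ^ L * (1 / 4) ^ L := by gcongr
      _ = 1 := by
        rw [← mul_pow]
        norm_num
  calc A (phi ρ) ξ x ≤ A (fun y => (∑ l ∈ Finset.range (L + 1),
          ENNReal.ofReal (4 * (1 / 4) ^ l) * ind (2 ^ l * ρ) y) +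
            ENNReal.ofReal ((1 / 4) ^ L)) ξ x := A_mono (phi_le_sum ρ hρ L) ξ x
    _ = A (fun y => (∑ l ∈ Finset.range (L + 1),
          ENNReal.ofReal (4 * (1 / 4) ^ l) * ind (2 ^ l * ρ) y)) ξ x +
          ((n + 1 : ℕ) : ℝ≥0∞) * ENNReal.ofReal ((1 / 4) ^ L) := by
        unfold A
        rw [Finset.sum_add_distrib, Finset.sum_const, Finset.card_range, nsmul_eq_mul]
    _ ≤ _ := by
        rw [A_sum]
        gcongr

theorem term_bound (v : ℝ≥0) (hv : v ≠ 0) (ρ : ℝ) (hρ : 0 < ρ) (n : ℕ) (x : E) (l : ℕ) :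
    ENNReal.ofReal (4 * (1 / 4) ^ l) *
      ∫⁻ ξ : Fin n → E, A (ind (2 ^ l * ρ)) ξ x ∂(Measure.pi fun _ => G4 v) ≤
      ENNReal.ofReal (800 * (1 + ρ ^ 2 / v)) := by
  have hv' : (0 : ℝ) < v := by positivity
  calc ENNReal.ofReal (4 * (1 / 4) ^ l) *
        ∫⁻ ξ : Fin n → E, A (ind (2 ^ l * ρ)) ξ x ∂(Measure.pi fun _ => G4 v)
      ≤ ENNReal.ofReal (4 * (1 / 4) ^ l) *
        (ENNReal.ofReal (200 * (1 + (2 ^ l * ρ) ^ 2 / v)) * phi (2 ^ l * ρ) x) := by
        gcongr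
        exact lintegral_A_ind_le v hv _ (by positivity) n x
    _ ≤ ENNReal.ofReal (4 * (1 / 4) ^ l) *
        (ENNReal.ofReal (200 * (1 + (2 ^ l * ρ) ^ 2 / v)) * 1) := by
        gcongr
        exact phi_le_one _ _
    _ = ENNReal.ofReal (4 * (1 / 4) ^ l * (200 * (1 + (2 ^ l * ρ) ^ 2 / v))) := by
        rw [mul_one, ← ENNReal.ofReal_mul (by positivity)]
    _ ≤ ENNReal.ofReal (800 * (1 + ρ ^ 2 / v)) := by
        apply ENNReal.ofReal_le_ofReal
        have h3 : (2 ^ l * ρ) ^ 2 = 4 ^ l * ρ ^ 2 := by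
          rw [mul_pow, ← pow_mul, mul_comm l 2, pow_mul]
          norm_num
        have h4 : ((1 : ℝ) / 4) ^ l * 4 ^ l = 1 := by
          rw [← mul_pow]
          norm_num
        have h5 : ((1 : ℝ) / 4) ^ l ≤ 1 := pow_le_one₀ (by norm_num) (by norm_num)
        rw [h3]
        calc 4 * (1 / 4) ^ l * (200 * (1 + 4 ^ l * ρ ^ 2 / v))
            = 800 * ((1 / 4) ^ l + ((1 / 4) ^ l * 4 ^ l) * (ρ ^ 2 / v)) := by ring
          _ = 800 * ((1 / 4) ^ l + ρ ^ 2 / v) := by rw [h4, one_mul]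
          _ ≤ 800 * (1 + ρ ^ 2 / v) := by gcongr

/-- First moment of the additive functional of `phi`. -/
theorem lintegral_A_phi_le (v : ℝ≥0) (hv : v ≠ 0) (ρ : ℝ) (hρ : 0 < ρ) (L n : ℕ)
    (hL : ((n + 1 : ℕ) : ℝ) ≤ 4 ^ L) (x : E) :
    ∫⁻ ξ : Fin n → E, A (phi ρ) ξ x ∂(Measure.pi fun _ => G4 v) ≤
      ENNReal.ofReal (801 * (L + 1) * (1 + ρ ^ 2 / v)) := by
  have hv' : (0 : ℝ) < v := by positivity
  have hmeas : ∀ l : ℕ, Measurable fun ξ : Fin n → E => A (ind (2 ^ l * ρ)) ξ x := fun l =>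
    measurable_A' (measurable_ind (2 ^ l * ρ)) n x
  calc ∫⁻ ξ : Fin n → E, A (phi ρ) ξ x ∂(Measure.pi fun _ => G4 v)
      ≤ ∫⁻ ξ : Fin n → E, ((∑ l ∈ Finset.range (L + 1),
          ENNReal.ofReal (4 * (1 / 4) ^ l) * A (ind (2 ^ l * ρ)) ξ x) + 1)
            ∂(Measure.pi fun _ => G4 v) := lintegral_mono (A_phi_le ρ hρ L n hL x)
    _ = (∑ l ∈ Finset.range (L + 1), ENNReal.ofReal (4 * (1 / 4) ^ l) *
          ∫⁻ ξ : Fin n → E, A (ind (2 ^ l * ρ)) ξ x ∂(Measure.pi fun _ => G4 v)) + 1 := by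
        rw [lintegral_add_right _ measurable_const]
        rw [lintegral_finsetSum]
        · simp only [lintegral_const, measure_univ, mul_one]
          congr 1
          apply Finset.sum_congr rfl
          intro l _
          rw [lintegral_const_mul _ (hmeas l)]
        · intro l _
          exact (hmeas l).const_mul _
    _ ≤ (∑ l ∈ Finset.range (L + 1), ENNReal.ofReal (800 * (1 + ρ ^ 2 / v))) + 1 := by
        gcongr with l _
        exact term_bound v hv ρ hρ n x l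
    _ = ENNReal.ofReal (((L + 1 : ℕ) : ℝ) * (800 * (1 + ρ ^ 2 / v)) + 1) := by
        rw [Finset.sum_const, Finset.card_range, nsmul_eq_mul]
        rw [ENNReal.ofReal_add (by positivity) (by norm_num), ENNReal.ofReal_one]
        rw [ENNReal.ofReal_mul (Nat.cast_nonneg _)]
        rw [ENNReal.ofReal_natCast]
    _ ≤ ENNReal.ofReal (801 * (L + 1) * (1 + ρ ^ 2 / v)) := by
        apply ENNReal.ofReal_le_ofReal
        push_cast
        have h1 : (1 : ℝ) ≤ (L + 1) * (1 + ρ ^ 2 / v) := by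
          have h2 : (1 : ℝ) ≤ L + 1 := by linarith [(Nat.cast_nonneg L : (0 : ℝ) ≤ L)]
          have h3 : (1 : ℝ) ≤ 1 + ρ ^ 2 / v := by
            have : 0 ≤ ρ ^ 2 / (v : ℝ) := by positivity
            linarith
          calc (1 : ℝ) = 1 * 1 := by ring
            _ ≤ _ := by gcongr
        linarith

end Pool.Agent.Helper93.Sheet
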