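import Mathlib
import Pool.Agent.Helper93.Sheet.Moment

set_option autoImplicit false

namespace Pool.Agent.Helper93.Sheet

open MeasureTheory ProbabilityTheory ENNReal NNReal

/-- Increment of a path. -/
def inc (W : ℕ → E) (l : ℕ) : E := W (l + 1) - W l

/-- Forward increments from time `r`. -/
def fwd (W : ℕ → E) (r n : ℕ) : Fin n → E := fun l => inc W (r + l)

/-- Backward increments from time `r`. -/
def bwd (W : ℕ → E) (r n : ℕ) : Fin n → E := fun l => inc W (r - 1 - l)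

theorem ps_eq (N : ℕ) (g : ℕ → E) (i : ℕ) (hi : i ≤ N) :
    ps (fun l : Fin N => g l) i = ∑ l ∈ Finset.range i, g l := by
  unfold ps
  rw [Fin.sum_univ_eq_sum_range (fun l => if l < i then g l else 0) N]
  rw [← Finset.sum_filter]
  apply Finset.sum_congr
  · ext l
    simp only [Finset.mem_filter, Finset.mem_range]
    omega
  · intro l _
    rfl

theorem ps_fwd (W : ℕ → E) (r n i : ℕ) (hi : i ≤ n) : ps (fwd W r n) i = W (r + i) - W r := by
  unfold fwd
  rw [ps_eq n (fun l => inc W (r + l)) i hi]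
  have := Finset.sum_range_sub (fun l => W (r + l)) i
  simpa [inc, add_assoc] using this

theorem ps_bwd (W : ℕ → E) (r n i : ℕ) (hi : i ≤ n) (hr : n ≤ r) :
    ps (bwd W r n) i = W r - W (r - i) := by
  unfold bwd
  rw [ps_eq n (fun l => inc W (r - 1 - l)) i hi]
  have h := Finset.sum_range_sub' (fun l => W (r - l)) i
  simp only [Nat.sub_zero] at h
  rw [← h]
  apply Finset.sum_congr rfl
  intro l hl
  rw [Finset.mem_range] at hl
  unfold inc
  have h1 : r - 1 - l + 1 = r - l := by omega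
  have h2 : r - 1 - l = r - (l + 1) := by omega
  rw [h1, h2]

/-- The sum of the kernel `phi` along the walk, as seen from the point at time `b'`. -/
noncomputable def FF (ρ : ℝ) {m : ℕ} (η : Fin m → E) (b' : ℕ) : ℝ≥0∞ :=
  ∑ b ∈ Finset.range (m + 1), phi ρ (ps η b - ps η b')

/-- The maximum of the `FF`. -/
noncomputable def Fmax (ρ : ℝ) {m : ℕ} (η : Fin m → E) : ℝ≥0∞ :=
  (Finset.range (m + 1)).sup fun b' => FF ρ η b'

theorem phi_compare (ρ : ℝ) (hρ : 0 < ρ) (y z : E) (hz : ‖z‖ ≤ ρ) :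
    phi ρ y ≤ 3 * phi ρ (y - z) := by
  unfold phi
  have h3 : (3 : ℝ≥0∞) = ENNReal.ofReal 3 := by norm_num
  rw [h3, ← ENNReal.ofReal_mul (by norm_num)]
  apply ENNReal.ofReal_le_ofReal
  rw [mul_div_assoc', div_le_div_iff₀ (by positivity) (by positivity)]
  have h1 : ‖y - z‖ ≤ ‖y‖ + ρ := (norm_sub_le y z).trans (by linarith)
  have h2 : ‖y - z‖ ^ 2 ≤ (‖y‖ + ρ) ^ 2 := by gcongr
  have h4 : ρ ^ 2 + ‖y - z‖ ^ 2 ≤ 3 * (ρ ^ 2 + ‖y‖ ^ 2) := by
    nlinarith [sq_nonneg (‖y‖ - ρ)]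
  calc ρ ^ 2 * (ρ ^ 2 + ‖y - z‖ ^ 2) ≤ ρ ^ 2 * (3 * (ρ ^ 2 + ‖y‖ ^ 2)) := by gcongr
    _ = 3 * ρ ^ 2 * (ρ ^ 2 + ‖y‖ ^ 2) := by ring

theorem A_A_swap (f : E → ℝ≥0∞) {n m : ℕ} (ξ : Fin n → E) (η : Fin m → E) (x : E) :
    A (fun y => A f η y) ξ x = ∑ b ∈ Finset.range (m + 1), A f ξ (x + ps η b) := by
  unfold A
  rw [Finset.sum_comm]
  apply Finset.sum_congr rfl
  intro b _
  apply Finset.sum_congr rfl
  intro i _
  congr 1
  abel

theorem lintegral_AA_le (v : ℝ≥0) (hv : v ≠ 0) (ρ : ℝ) (hρ : 0 < ρ) (n m : ℕ)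
    (η : Fin m → E) (x : E) :
    ∫⁻ ξ : Fin n → E, A (fun y => A (ind ρ) η y) ξ x ∂(Measure.pi fun _ => G4 v) ≤
      ENNReal.ofReal (200 * (1 + ρ ^ 2 / v)) *
        ∑ b ∈ Finset.range (m + 1), phi ρ (x + ps η b) := by
  simp only [A_A_swap]
  rw [lintegral_finsetSum]
  · rw [Finset.mul_sum]
    apply Finset.sum_le_sum
    intro b _
    exact lintegral_A_ind_le v hv ρ hρ n (x + ps η b)
  · intro b _
    exact measurable_A' (measurable_ind ρ) n _

theorem alpha_bound (v : ℝ≥0) (hv : v ≠ 0) (ρ : ℝ) (hρ : 0 < ρ) (n m : ℕ)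
    (η : Fin m → E) (x : E) (hx : A (ind ρ) η x ≠ 0) :
    ∫⁻ ξ : Fin n → E, A (fun y => A (ind ρ) η y) ξ x ∂(Measure.pi fun _ => G4 v) ≤
      ENNReal.ofReal (200 * (1 + ρ ^ 2 / v)) * (3 * Fmax ρ η) := by
  refine (lintegral_AA_le v hv ρ hρ n m η x).trans ?_
  gcongr
  obtain ⟨b', hb', hne⟩ := Finset.exists_ne_zero_of_sum_ne_zero hx
  have hb : ‖x + ps η b'‖ ≤ ρ := by
    unfold ind at hne
    have := Set.mem_of_indicator_ne_zero hne
    simpa using this
  calc ∑ b ∈ Finset.range (m + 1), phi ρ (x + ps η b)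
      ≤ ∑ b ∈ Finset.range (m + 1), 3 * phi ρ (ps η b - ps η b') := by
        apply Finset.sum_le_sum
        intro b _
        have := phi_compare ρ hρ (x + ps η b) (x + ps η b') hb
        have h2 : x + ps η b - (x + ps η b') = ps η b - ps η b' := by abel
        rwa [h2] at this
    _ = 3 * FF ρ η b' := by rw [FF, Finset.mul_sum]
    _ ≤ 3 * Fmax ρ η := by
        gcongr
        exact Finset.le_sup (f := fun b' => FF ρ η b') hb'

theorem measurable_AA (ρ : ℝ) (m : ℕ) (η : Fin m → E) :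
    Measurable (fun y => A (ind ρ) η y) := by
  unfold A
  apply Finset.measurable_sum
  intro i _
  exact (measurable_ind ρ).comp (measurable_id.add measurable_const)

/-- First application of Khasminskii's lemma: conditionally on one path. -/
theorem cond_moment (v : ℝ≥0) (hv : v ≠ 0) (ρ : ℝ) (hρ : 0 < ρ) (n m k : ℕ)
    (η : Fin m → E) :
    ∫⁻ ξ : Fin n → E, (A (fun y => A (ind ρ) η y) ξ 0) ^ (k + 1) ∂(Measure.pi fun _ => G4 v) ≤
      (k + 1).factorial * (ENNReal.ofReal (200 * (1 + ρ ^ 2 / v)) * (3 * Fmax ρ η)) ^ (k + 1) := by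
  set α := ENNReal.ofReal (200 * (1 + ρ ^ 2 / v)) * (3 * Fmax ρ η) with hα
  have h1 := khas (G4 v) (fun y => A (ind ρ) η y) (measurable_AA ρ m η) α n
    (fun n' _ x hx => alpha_bound v hv ρ hρ n' m η x hx) k n le_rfl 0
  refine h1.trans ?_
  have h2 : ∫⁻ ξ : Fin n → E, A (fun y => A (ind ρ) η y) ξ 0 ∂(Measure.pi fun _ => G4 v) ≤ α := by
    refine (lintegral_AA_le v hv ρ hρ n m η 0).trans ?_
    rw [hα]
    gcongr
    have h3 : ∑ b ∈ Finset.range (m + 1), phi ρ (0 + ps η b) = FF ρ η 0 := by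
      unfold FF
      simp [ps_zero]
    rw [h3]
    calc FF ρ η 0 ≤ Fmax ρ η := Finset.le_sup (f := fun b' => FF ρ η b') (by simp)
      _ = 1 * Fmax ρ η := (one_mul _).symm
      _ ≤ 3 * Fmax ρ η := by gcongr; norm_num
  calc ((k + 1).factorial : ℝ≥0∞) * α ^ k *
        ∫⁻ ξ : Fin n → E, A (fun y => A (ind ρ) η y) ξ 0 ∂(Measure.pi fun _ => G4 v)
      ≤ ((k + 1).factorial : ℝ≥0∞) * α ^ k * α := by gcongr
    _ = ((k + 1).factorial : ℝ≥0∞) * α ^ (k + 1) := by ring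

theorem Fmax_pow_le (ρ : ℝ) {m : ℕ} (η : Fin m → E) (k : ℕ) :
    (Fmax ρ η) ^ (k + 1) ≤ ∑ b' ∈ Finset.range (m + 1), (FF ρ η b') ^ (k + 1) := by
  have hne : (Finset.range (m + 1)).Nonempty := ⟨0, by simp⟩
  obtain ⟨b', hb', h⟩ := Finset.exists_mem_eq_sup (Finset.range (m + 1)) hne (fun b' => FF ρ η b')
  unfold Fmax
  rw [h]
  exact Finset.single_le_sum (f := fun b' => (FF ρ η b') ^ (k + 1)) (fun _ _ => zero_le) hb'

theorem sum_split (g : ℕ → ℝ≥0∞) (m b' : ℕ) (hb' : b' ≤ m) :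
    ∑ b ∈ Finset.range (m + 1), g b ≤
      ∑ i ∈ Finset.range (m - b' + 1), g (b' + i) + ∑ i ∈ Finset.range (b' + 1), g (b' - i) := by
  have h1 : m + 1 = b' + (m - b' + 1) := by omega
  have h2 : ∑ i ∈ Finset.range (b' + 1), g (b' - i) = ∑ i ∈ Finset.range (b' + 1), g i := by
    have := Finset.sum_range_reflect g (b' + 1)
    simpa using this
  rw [h1, Finset.sum_range_add, h2, Finset.sum_range_succ g b', add_comm]
  have h3 : b' + (m - b' + 1) = b' + (m - b' + 1) := rfl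
  gcongr
  exact le_self_add

theorem two_pow_bound (a b : ℝ≥0∞) (k : ℕ) : (a + b) ^ k ≤ 2 ^ k * (a ^ k + b ^ k) := by
  have h1 : a + b ≤ 2 * max a b := by
    rw [two_mul]
    exact add_le_add (le_max_left _ _) (le_max_right _ _)
  calc (a + b) ^ k ≤ (2 * max a b) ^ k := by gcongr
    _ = 2 ^ k * (max a b) ^ k := by rw [mul_pow]
    _ ≤ 2 ^ k * (a ^ k + b ^ k) := by
      gcongr
      rcases le_total a b with h | h
      · rw [max_eq_right h]; exact le_add_self
      · rw [max_eq_left h]; exact le_self_add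

theorem FF_fwd_le (ρ : ℝ) (W : ℕ → E) (R m b' : ℕ) (hb' : b' ≤ m) :
    FF ρ (fwd W R m) b' ≤
      A (phi ρ) (fwd W (R + b') (m - b')) 0 + A (phi ρ) (bwd W (R + b') b') 0 := by
  unfold FF
  refine (sum_split (fun b => phi ρ (ps (fwd W R m) b - ps (fwd W R m) b')) m b' hb').trans ?_
  apply le_of_eq
  congr 1
  · unfold A
    apply Finset.sum_congr rfl
    intro i hi
    rw [Finset.mem_range] at hi
    rw [ps_fwd W R m (b' + i) (by omega), ps_fwd W R m b' hb',
      ps_fwd W (R + b') (m - b') i (by omega)]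
    congr 1
    rw [zero_add, add_assoc]
    abel
  · unfold A
    apply Finset.sum_congr rfl
    intro i hi
    rw [Finset.mem_range] at hi
    rw [ps_fwd W R m (b' - i) (by omega), ps_fwd W R m b' hb',
      ps_bwd W (R + b') b' i (by omega) (by omega)]
    rw [← phi_neg]
    congr 1
    have : R + b' - i = R + (b' - i) := by omega
    rw [this]
    abel

/-- The number of near coincidences. -/
noncomputable def MM (ρ : ℝ) (W : ℕ → E) (R m : ℕ) : ℝ≥0∞ :=
  ∑ i ∈ Finset.range (R + 1), ∑ j ∈ Finset.range (m + 1), ind ρ (W (R + j) - W (R - i))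

theorem MM_eq (ρ : ℝ) (W : ℕ → E) (R m : ℕ) :
    MM ρ W R m = A (fun y => A (ind ρ) (fwd W R m) y) (bwd W R R) 0 := by
  unfold MM A
  apply Finset.sum_congr rfl
  intro i hi
  rw [Finset.mem_range] at hi
  apply Finset.sum_congr rfl
  intro j hj
  rw [Finset.mem_range] at hj
  rw [ps_fwd W R m j (by omega), ps_bwd W R R i (by omega) le_rfl]
  congr 1
  abel

end Pool.Agent.Helper93.Sheet
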