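import Mathlib
import Pool.Agent.Helper93.Sheet.Omega

set_option autoImplicit false

namespace Pool.Agent.Helper93.Sheet

open MeasureTheory ProbabilityTheory ENNReal NNReal

variable {Ω : Type} [MeasurableSpace Ω]

/-- The Gaussian hypothesis defining a (four-dimensional) Brownian sheet. -/
def IsSheet (P : Measure Ω) (B : Ω → ℝ → ℝ → E) : Prop :=
  ∀ (n : ℕ) (x : Fin n → ℝ × ℝ) (c : Fin n → Fin 4 → ℝ),
      (∀ k, 0 ≤ (x k).1 ∧ 0 ≤ (x k).2) →
      P.map (fun ω => ∑ k, ∑ i, c k i * B ω (x k).1 (x k).2 i) =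
        gaussianReal 0 (Real.toNNReal
          (∑ k, ∑ l, ∑ i, c k i * c l i *
            (min (x k).1 (x l).1 * min (x k).2 (x l).2)))

theorem IsSheet.general {P : Measure Ω} {B : Ω → ℝ → ℝ → E} (h : IsSheet P B)
    {κ : Type} [Fintype κ] (x : κ → ℝ × ℝ) (c : κ → Fin 4 → ℝ)
    (hx : ∀ k, 0 ≤ (x k).1 ∧ 0 ≤ (x k).2) :
    P.map (fun ω => ∑ k, ∑ i, c k i * B ω (x k).1 (x k).2 i) =
        gaussianReal 0 (Real.toNNReal
          (∑ k, ∑ l, ∑ i, c k i * c l i *
            (min (x k).1 (x l).1 * min (x k).2 (x l).2))) := by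
  let e := (Fintype.equivFin κ).symm
  have h1 := h (Fintype.card κ) (fun k => x (e k)) (fun k => c (e k)) (fun k => hx (e k))
  have h2 : (fun ω => ∑ k, ∑ i, c (e k) i * B ω (x (e k)).1 (x (e k)).2 i) =
      fun ω => ∑ k, ∑ i, c k i * B ω (x k).1 (x k).2 i := by
    ext ω
    exact Equiv.sum_comp e (fun k => ∑ i, c k i * B ω (x k).1 (x k).2 i)
  have h3 : ∑ k, ∑ l, ∑ i, c (e k) i * c (e l) i *
            (min (x (e k)).1 (x (e l)).1 * min (x (e k)).2 (x (e l)).2) =
      ∑ k, ∑ l, ∑ i, c k i * c l i *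
            (min (x k).1 (x l).1 * min (x k).2 (x l).2) := by
    rw [← Equiv.sum_comp e (fun k => ∑ l, ∑ i, c k i * c l i *
            (min (x k).1 (x l).1 * min (x k).2 (x l).2))]
    apply Finset.sum_congr rfl
    intro k _
    exact Equiv.sum_comp e (fun l => ∑ i, c (e k) i * c l i *
            (min (x (e k)).1 (x l).1 * min (x (e k)).2 (x l).2))
  rw [h2, h3] at h1
  exact h1

theorem IsSheet.aemeasurable {P : Measure Ω} {B : Ω → ℝ → ℝ → E}
    (h : IsSheet P B) (s t : ℝ) (hs : 0 ≤ s) (ht : 0 ≤ t) : AEMeasurable (fun ω => B ω s t) P := by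
  rw [aemeasurable_pi_iff]
  intro i
  have h1 := h.general (κ := Unit) (fun _ => (s, t)) (fun _ j => if j = i then 1 else 0)
    (fun _ => ⟨hs, ht⟩)
  have h2 := aemeasurable_of_map_eq_prob h1
  simpa using h2

theorem IsSheet.law {P : Measure Ω} [IsProbabilityMeasure P] {B : Ω → ℝ → ℝ → E}
    (h : IsSheet P B) (s0 δ : ℝ) (hs : 0 ≤ s0) (hδ : 0 ≤ δ) {ι : Type} [Fintype ι]
    (σ : ι → ℕ) (hσ : Function.Injective σ) (a : ι → Fin 4 → ℝ) :
    P.map (fun ω => ∑ l, ∑ i, a l i * (inc (fun j => B ω s0 (j * δ)) (σ l)) i) =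
      gaussianReal 0 (Real.toNNReal (∑ l, ∑ i, s0 * δ * (a l i) ^ 2)) := by
  classical
  let x : ι ⊕ ι → ℝ × ℝ := Sum.elim (fun l => (s0, ((σ l + 1 : ℕ) : ℝ) * δ))
    (fun l => (s0, (σ l : ℝ) * δ))
  let c : ι ⊕ ι → Fin 4 → ℝ := Sum.elim (fun l => a l) (fun l i => - a l i)
  have h1 := h.general x c (by
    intro k
    rcases k with k | k
    · simp only [x, Sum.elim_inl]
      exact ⟨hs, by positivity⟩
    · simp only [x, Sum.elim_inr]
      exact ⟨hs, by positivity⟩)
  have h2 : (fun ω => ∑ k, ∑ i, c k i * B ω (x k).1 (x k).2 i) =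
      fun ω => ∑ l, ∑ i, a l i * (inc (fun j => B ω s0 (j * δ)) (σ l)) i := by
    ext ω
    rw [Fintype.sum_sum_type, ← Finset.sum_add_distrib]
    apply Finset.sum_congr rfl
    intro l _
    simp only [c, x, Sum.elim_inl, Sum.elim_inr]
    rw [← Finset.sum_add_distrib]
    apply Finset.sum_congr rfl
    intro i _
    simp only [inc, Pi.sub_apply]
    ring
  have h3 : ∑ k, ∑ l, ∑ i, c k i * c l i *
            (min (x k).1 (x l).1 * min (x k).2 (x l).2) =
      ∑ l, ∑ i, s0 * δ * (a l i) ^ 2 := by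
    rw [Fintype.sum_sum_type, ← Finset.sum_add_distrib]
    apply Finset.sum_congr rfl
    intro l _
    rw [Fintype.sum_sum_type, Fintype.sum_sum_type]
    simp only [c, x, Sum.elim_inl, Sum.elim_inr, min_self]
    rw [← Finset.sum_add_distrib, ← Finset.sum_add_distrib, ← Finset.sum_add_distrib]
    rw [Finset.sum_eq_single l]
    · rw [← Finset.sum_add_distrib, ← Finset.sum_add_distrib, ← Finset.sum_add_distrib]
      apply Finset.sum_congr rfl
      intro i _
      have h4 : min (((σ l + 1 : ℕ) : ℝ) * δ) ((σ l : ℝ) * δ) = (σ l : ℝ) * δ := by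
        apply min_eq_right
        push_cast
        nlinarith
      have h5 : min ((σ l : ℝ) * δ) (((σ l + 1 : ℕ) : ℝ) * δ) = (σ l : ℝ) * δ := by
        rw [min_comm]; exact h4
      rw [h4, h5, min_self, min_self]
      push_cast
      ring
    · intro l' _ hl'
      rw [← Finset.sum_add_distrib, ← Finset.sum_add_distrib, ← Finset.sum_add_distrib]
      apply Finset.sum_eq_zero
      intro i _
      have hne : σ l ≠ σ l' := fun hh => hl' (hσ hh).symm
      rcases lt_or_gt_of_ne hne with hlt | hlt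
      · have e0 : ((σ l : ℝ) + 1) ≤ (σ l' : ℝ) := by exact_mod_cast hlt
        have e1 : min (((σ l + 1 : ℕ) : ℝ) * δ) (((σ l' + 1 : ℕ) : ℝ) * δ) =
            ((σ l + 1 : ℕ) : ℝ) * δ := by
          apply min_eq_left; push_cast; nlinarith
        have e2 : min (((σ l + 1 : ℕ) : ℝ) * δ) ((σ l' : ℝ) * δ) = ((σ l + 1 : ℕ) : ℝ) * δ := by
          apply min_eq_left; push_cast; nlinarith
        have e3 : min ((σ l : ℝ) * δ) (((σ l' + 1 : ℕ) : ℝ) * δ) = (σ l : ℝ) * δ := by
          apply min_eq_left; push_cast; nlinarith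
        have e4 : min ((σ l : ℝ) * δ) ((σ l' : ℝ) * δ) = (σ l : ℝ) * δ := by
          apply min_eq_left; nlinarith
        rw [e1, e2, e3, e4]
        ring
      · have e0 : ((σ l' : ℝ) + 1) ≤ (σ l : ℝ) := by exact_mod_cast hlt
        have e1 : min (((σ l + 1 : ℕ) : ℝ) * δ) (((σ l' + 1 : ℕ) : ℝ) * δ) =
            ((σ l' + 1 : ℕ) : ℝ) * δ := by
          apply min_eq_right; push_cast; nlinarith
        have e2 : min (((σ l + 1 : ℕ) : ℝ) * δ) ((σ l' : ℝ) * δ) = (σ l' : ℝ) * δ := by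
          apply min_eq_right; push_cast; nlinarith
        have e3 : min ((σ l : ℝ) * δ) (((σ l' + 1 : ℕ) : ℝ) * δ) = ((σ l' + 1 : ℕ) : ℝ) * δ := by
          apply min_eq_right; push_cast; nlinarith
        have e4 : min ((σ l : ℝ) * δ) ((σ l' : ℝ) * δ) = (σ l' : ℝ) * δ := by
          apply min_eq_right; nlinarith
        rw [e1, e2, e3, e4]
        ring
    · simp
  rw [h2, h3] at h1
  exact h1

theorem IsSheet.isWalk {P : Measure Ω} [IsProbabilityMeasure P] {B : Ω → ℝ → ℝ → E}
    (h : IsSheet P B) (s0 δ : ℝ) (hs : 0 ≤ s0) (hδ : 0 ≤ δ) :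
    IsWalk P (fun ω j => B ω s0 (j * δ)) (Real.toNNReal (s0 * δ)) := by
  intro ι _ σ hσ
  classical
  have hmeas : AEMeasurable (fun ω (l : ι) => inc (fun j : ℕ => B ω s0 (j * δ)) (σ l)) P := by
    rw [aemeasurable_pi_iff]
    intro l
    unfold inc
    exact (h.aemeasurable s0 _ hs (by positivity)).sub (h.aemeasurable s0 _ hs (by positivity))
  have : IsProbabilityMeasure
      (P.map (fun ω (l : ι) => inc (fun j : ℕ => B ω s0 (j * δ)) (σ l))) :=
    Measure.isProbabilityMeasure_map hmeas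
  apply Measure.ext_of_charFunDual
  ext L
  rw [charFunDual_eq_charFun_map_one]
  rw [AEMeasurable.map_map_of_aemeasurable (by fun_prop) hmeas]
  set a : ι → Fin 4 → ℝ := fun l i => L (Pi.single l (Pi.single i 1)) with ha
  have hL : ∀ y : ι → E, L y = ∑ l, ∑ i, a l i * y l i := by
    intro y
    have hy : y = ∑ l, ∑ i, (y l i) • (Pi.single l (Pi.single i (1 : ℝ)) : ι → E) := by
      ext l i
      rw [Finset.sum_apply, Finset.sum_apply]
      rw [Finset.sum_eq_single l]
      · rw [Finset.sum_apply, Finset.sum_apply, Finset.sum_eq_single i]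
        · simp
        · intro j _ hj
          simp [hj.symm]
        · simp
      · intro l' _ hl'
        simp [hl'.symm]
      · simp
    conv_lhs => rw [hy]
    simp only [map_sum, map_smul, smul_eq_mul, ha]
    apply Finset.sum_congr rfl
    intro l _
    apply Finset.sum_congr rfl
    intro i _
    ring
  have h1 : (L ∘ fun ω (l : ι) => inc (fun j : ℕ => B ω s0 (j * δ)) (σ l)) =
      fun ω => ∑ l, ∑ i, a l i * (inc (fun j : ℕ => B ω s0 (j * δ)) (σ l)) i := by
    ext ω
    exact hL _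
  rw [h1, h.law s0 δ hs hδ σ hσ a, charFun_gaussianReal, charFunDual_pi]
  simp only [charFunDual_G4]
  rw [Real.coe_toNNReal _ (by positivity), Real.coe_toNNReal _ (by positivity)]
  have h2 : ∀ l : ι, ∏ i, Complex.exp (-((s0 * δ *
      ((L.comp (ContinuousLinearMap.single ℝ (fun _ : ι => E) l)) (Pi.single i 1)) ^ 2 / 2 : ℝ) : ℂ)) =
      Complex.exp (∑ i, (-((s0 * δ * (a l i) ^ 2 / 2 : ℝ) : ℂ))) := by
    intro l
    rw [Complex.exp_sum]
    rfl
  simp only [h2]
  rw [← Complex.exp_sum]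
  congr 1
  push_cast
  simp only [mul_zero, zero_mul, one_pow, mul_one, zero_sub]
  rw [Finset.sum_div, ← Finset.sum_neg_distrib]
  apply Finset.sum_congr rfl
  intro l _
  rw [Finset.sum_div, ← Finset.sum_neg_distrib]

theorem IsSheet.two_point {P : Measure Ω} [IsProbabilityMeasure P] {B : Ω → ℝ → ℝ → E}
    (h : IsSheet P B) (s t s' t' : ℝ) (hs : 0 ≤ s) (ht : 0 ≤ t) (hs' : s ≤ s') (ht' : t ≤ t')
    (i : Fin 4) :
    P.map (fun ω => B ω s' t' i - B ω s t i) = gaussianReal 0 (Real.toNNReal (s' * t' - s * t)) := by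
  have h1 := h.general (κ := Bool) (fun b => if b then (s', t') else (s, t))
    (fun b j => if j = i then (if b then 1 else -1) else 0) (by
      intro k
      cases k
      · simp [hs, ht]
      · simp [hs.trans hs', ht.trans ht'])
  have h2 : (fun ω => ∑ k : Bool, ∑ j : Fin 4, (if j = i then (if k then (1 : ℝ) else -1) else 0) *
      B ω (if k then (s', t') else (s, t)).1 (if k then (s', t') else (s, t)).2 j) =
      fun ω => B ω s' t' i - B ω s t i := by
    ext ω
    simp
    ring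
  rw [h2] at h1
  rw [h1]
  congr 2
  simp [min_eq_left hs', min_eq_left ht', min_eq_right hs', min_eq_right ht']
  ring

end Pool.Agent.Helper93.Sheet
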