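import Mathlib
import Pool.Agent.Helper93.Sheet.Chain

set_option autoImplicit false

namespace Pool.Agent.Helper93.Sheet

open MeasureTheory ProbabilityTheory ENNReal NNReal Filter Topology

variable {Ω : Type} [MeasurableSpace Ω]

/-- Constant in the bound for the bad event. -/
noncomputable def DA (p T : ℕ) : ℝ :=
  (((T : ℝ) + 1) * 4 ^ (p + 1)) ^ 2 * (2 * T) ^ (2 * p + 3)

theorem floor_div_facts (b : ℕ) (hb : 0 < b) (a n T : ℕ) (ha : a ≤ T * b ^ (n + 1)) :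
    (((a / b : ℕ) : ℝ) / (b : ℝ) ^ n ≤ (a : ℝ) / (b : ℝ) ^ (n + 1)) ∧
    ((a : ℝ) / (b : ℝ) ^ (n + 1) - ((a / b : ℕ) : ℝ) / (b : ℝ) ^ n ≤ 1 / (b : ℝ) ^ n) ∧
    (a : ℝ) / (b : ℝ) ^ (n + 1) ≤ T := by
  have hb' : (0 : ℝ) < b := by exact_mod_cast hb
  have h1 : ((a / b : ℕ) : ℝ) * b ≤ a := by exact_mod_cast Nat.div_mul_le_self a b
  have h2 : (a : ℝ) ≤ (((a / b : ℕ) : ℝ) + 1) * b := by
    have := Nat.lt_div_mul_add (a := a) hb
    have h3 : a ≤ (a / b + 1) * b := by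
      rw [add_mul, one_mul]
      exact this.le
    exact_mod_cast h3
  have h3 : (a : ℝ) ≤ T * (b : ℝ) ^ (n + 1) := by exact_mod_cast ha
  refine ⟨?_, ?_, ?_⟩
  · rw [div_le_div_iff₀ (by positivity) (by positivity), pow_succ]
    have : (0 : ℝ) < (b : ℝ) ^ n := by positivity
    nlinarith
  · have e1 : ((a / b : ℕ) : ℝ) / (b : ℝ) ^ n = ((a / b : ℕ) : ℝ) * b / (b : ℝ) ^ (n + 1) := by
      rw [pow_succ]
      field_simp
    have e2 : 1 / (b : ℝ) ^ n = b / (b : ℝ) ^ (n + 1) := by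
      rw [pow_succ]
      field_simp
    rw [e1, e2, div_sub_div_same]
    gcongr
    linarith
  · rw [div_le_iff₀ (by positivity)]
    exact h3

theorem measure_badA {P : Measure Ω} [IsProbabilityMeasure P] {B : Ω → ℝ → ℝ → E}
    (h : IsSheet P B) (p T n : ℕ) :
    P (badA B p T n) ≤ 4 * momC (2 * p + 3) * ENNReal.ofReal (DA p T * (1 / 4) ^ n) := by
  set b : ℕ := 4 ^ (p + 1) with hb
  have hbpos : 0 < b := by positivity
  have hb' : (b : ℝ) = 4 ^ (p + 1) := by rw [hb]; push_cast; rfl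
  have hbR : (0 : ℝ) < b := by exact_mod_cast hbpos
  set K : ℕ := 2 * p + 3 with hK
  set N : ℕ := T * b ^ (n + 1) + 1 with hN
  set ε : ℝ := (2 * T * (1 / 4) ^ n) ^ K with hε
  have hε0 : 0 ≤ ε := by positivity
  -- single pair
  have hpair : ∀ a ∈ Finset.range N, ∀ c ∈ Finset.range N,
      P {ω | (1 / 2 : ℝ) ^ (p * n) <
      ‖B ω ((a : ℝ) / (4 ^ (p + 1)) ^ (n + 1)) ((c : ℝ) / (4 ^ (p + 1)) ^ (n + 1)) -
        B ω (((a / 4 ^ (p + 1) : ℕ) : ℝ) / (4 ^ (p + 1)) ^ n)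
          (((c / 4 ^ (p + 1) : ℕ) : ℝ) / (4 ^ (p + 1)) ^ n)‖} ≤
      4 * (momC K * ENNReal.ofReal ε) := by
    intro a ha c hc
    rw [Finset.mem_range] at ha hc
    obtain ⟨a1, a2, a3⟩ := floor_div_facts b hbpos a n T (by omega)
    obtain ⟨c1, c2, c3⟩ := floor_div_facts b hbpos c n T (by omega)
    rw [hb'] at a1 a2 a3 c1 c2 c3
    refine (two_point_tail h _ _ _ _ (by positivity) (by positivity) a1 c1 K _
      (by positivity)).trans ?_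
    gcongr
    set s' := (a : ℝ) / (4 ^ (p + 1)) ^ (n + 1)
    set t' := (c : ℝ) / (4 ^ (p + 1)) ^ (n + 1)
    set s := (((a / 4 ^ (p + 1) : ℕ) : ℝ) / (4 ^ (p + 1)) ^ n) with hs
    set t := (((c / 4 ^ (p + 1) : ℕ) : ℝ) / (4 ^ (p + 1)) ^ n) with ht
    have hs0 : 0 ≤ s := by positivity
    have ht0 : 0 ≤ t := by positivity
    have hT0 : (0 : ℝ) ≤ T := Nat.cast_nonneg T
    set d : ℝ := 1 / ((4 : ℝ) ^ (p + 1)) ^ n with hd
    have hd0 : 0 ≤ d := by positivity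
    have e1 : s' * t' - s * t ≤ 2 * T * d := by
      have : s' * t' - s * t = (s' - s) * t' + s * (t' - t) := by ring
      rw [this]
      have f1 : (s' - s) * t' ≤ d * T := mul_le_mul a2 c3 (by positivity) hd0
      have f2 : s * (t' - t) ≤ T * d := mul_le_mul (a1.trans a3) c2 (by linarith) hT0
      linarith
    have e2 : ((1 / 2 : ℝ) ^ (p * n)) ^ 2 = (1 / 4) ^ (p * n) := by
      rw [← pow_mul, mul_comm (p * n) 2, pow_mul]
      norm_num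
    have e3 : d = (1 / 4) ^ (p * n) * (1 / 4) ^ n := by
      rw [hd, ← pow_mul, ← pow_add, one_div, ← inv_pow]
      norm_num
      ring
    have hnn : 0 ≤ s' * t' - s * t := by
      have : s * t ≤ s' * t' := mul_le_mul a1 c1 ht0 (by positivity)
      linarith
    have e4 : (s' * t' - s * t) / ((1 / 2 : ℝ) ^ (p * n)) ^ 2 ≤ 2 * T * (1 / 4) ^ n := by
      rw [e2, div_le_iff₀ (by positivity)]
      calc s' * t' - s * t ≤ 2 * T * d := e1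
        _ = 2 * T * (1 / 4) ^ n * (1 / 4) ^ (p * n) := by rw [e3]; ring
    rw [hε]
    gcongr
  have hsub : badA B p T n ⊆ ⋃ a ∈ Finset.range N, ⋃ c ∈ Finset.range N,
      {ω | (1 / 2 : ℝ) ^ (p * n) <
      ‖B ω ((a : ℝ) / (4 ^ (p + 1)) ^ (n + 1)) ((c : ℝ) / (4 ^ (p + 1)) ^ (n + 1)) -
        B ω (((a / 4 ^ (p + 1) : ℕ) : ℝ) / (4 ^ (p + 1)) ^ n)
          (((c / 4 ^ (p + 1) : ℕ) : ℝ) / (4 ^ (p + 1)) ^ n)‖} := by
    rintro ω ⟨a, ha, c, hc, hω⟩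
    simp only [Set.mem_iUnion]
    exact ⟨a, ha, c, hc, hω⟩
  calc P (badA B p T n) ≤ _ := measure_mono hsub
    _ ≤ ∑ a ∈ Finset.range N, P (⋃ c ∈ Finset.range N,
      {ω | (1 / 2 : ℝ) ^ (p * n) <
      ‖B ω ((a : ℝ) / (4 ^ (p + 1)) ^ (n + 1)) ((c : ℝ) / (4 ^ (p + 1)) ^ (n + 1)) -
        B ω (((a / 4 ^ (p + 1) : ℕ) : ℝ) / (4 ^ (p + 1)) ^ n)
          (((c / 4 ^ (p + 1) : ℕ) : ℝ) / (4 ^ (p + 1)) ^ n)‖}) :=
        measure_biUnion_finset_le _ _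
    _ ≤ ∑ a ∈ Finset.range N, ∑ c ∈ Finset.range N, P
      {ω | (1 / 2 : ℝ) ^ (p * n) <
      ‖B ω ((a : ℝ) / (4 ^ (p + 1)) ^ (n + 1)) ((c : ℝ) / (4 ^ (p + 1)) ^ (n + 1)) -
        B ω (((a / 4 ^ (p + 1) : ℕ) : ℝ) / (4 ^ (p + 1)) ^ n)
          (((c / 4 ^ (p + 1) : ℕ) : ℝ) / (4 ^ (p + 1)) ^ n)‖} :=
        Finset.sum_le_sum fun a _ => measure_biUnion_finset_le _ _
    _ ≤ ∑ a ∈ Finset.range N, ∑ c ∈ Finset.range N, 4 * (momC K * ENNReal.ofReal ε) :=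
        Finset.sum_le_sum fun a ha => Finset.sum_le_sum fun c hc => hpair a ha c hc
    _ = 4 * momC K * ENNReal.ofReal ((N : ℝ) ^ 2 * ε) := by
        rw [Finset.sum_const, Finset.sum_const, Finset.card_range, nsmul_eq_mul, nsmul_eq_mul]
        rw [ENNReal.ofReal_mul (by positivity : (0 : ℝ) ≤ (N : ℝ) ^ 2),
          ENNReal.ofReal_pow (Nat.cast_nonneg N), ENNReal.ofReal_natCast]
        ring
    _ ≤ 4 * momC K * ENNReal.ofReal (DA p T * (1 / 4) ^ n) := by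
        refine mul_le_mul' le_rfl (ENNReal.ofReal_le_ofReal ?_)
        have f1 : (N : ℝ) ≤ ((T : ℝ) + 1) * b * (b : ℝ) ^ n := by
          rw [hN]
          push_cast
          have : (1 : ℝ) ≤ (b : ℝ) ^ (n + 1) := one_le_pow₀ (by exact_mod_cast hbpos)
          rw [pow_succ] at this ⊢
          nlinarith
        have f2 : (N : ℝ) ^ 2 ≤ (((T : ℝ) + 1) * b * (b : ℝ) ^ n) ^ 2 := by gcongr
        have f3 : ((b : ℝ) ^ n) ^ 2 * ((1 / 4) ^ n) ^ K = (1 / 4) ^ n := by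
          rw [hb', hK]
          have g1 : ((((4 : ℝ) ^ (p + 1)) ^ n)) ^ 2 = ((4 : ℝ) ^ n) ^ (2 * p + 2) := by
            rw [← pow_mul, ← pow_mul, ← pow_mul]
            congr 1
            ring
          have g2 : (((1 : ℝ) / 4) ^ n) ^ (2 * p + 3) =
              (((1 : ℝ) / 4) ^ n) ^ (2 * p + 2) * ((1 : ℝ) / 4) ^ n := by
            rw [← pow_succ]
          rw [g1, g2, ← mul_assoc, ← mul_pow, ← mul_pow]
          norm_num
        calc (N : ℝ) ^ 2 * ε ≤ (((T : ℝ) + 1) * b * (b : ℝ) ^ n) ^ 2 * ε := by gcongr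
          _ = (((T : ℝ) + 1) * b) ^ 2 * (2 * T) ^ K * (((b : ℝ) ^ n) ^ 2 * ((1 / 4) ^ n) ^ K) := by
              rw [hε, mul_pow (2 * (T : ℝ))]
              ring
          _ = DA p T * (1 / 4) ^ n := by
              rw [f3, DA, hb']

theorem ae_not_badA {P : Measure Ω} [IsProbabilityMeasure P] {B : Ω → ℝ → ℝ → E}
    (h : IsSheet P B) (p T : ℕ) : ∀ᵐ ω ∂P, ∀ᶠ n in atTop, ω ∉ badA B p T n := by
  apply ae_eventually_notMem
  have h1 : ∑' n, P (badA B p T n) ≤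
      ∑' n, 4 * momC (2 * p + 3) * ENNReal.ofReal (DA p T * (1 / 4) ^ n) :=
    ENNReal.tsum_le_tsum fun n => measure_badA h p T n
  rw [ENNReal.tsum_mul_left] at h1
  refine ne_top_of_le_ne_top ?_ h1
  apply ENNReal.mul_ne_top
  · exact ENNReal.mul_ne_top (by norm_num) (momC_lt_top _).ne
  · apply Summable.tsum_ofReal_ne_top
    exact (summable_geometric_of_lt_one (by norm_num) (by norm_num)).mul_left _

/-- Deterministic chaining. -/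
theorem chain (f : ℝ → ℝ → E)
    (hf : ContinuousOn (fun x : ℝ × ℝ => f x.1 x.2) ((Set.Ici (0 : ℝ)) ×ˢ (Set.Ici (0 : ℝ))))
    (p T n0 : ℕ) (hp : 1 ≤ p)
    (hgood : ∀ n ≥ n0, ∀ a ∈ Finset.range (T * (4 ^ (p + 1)) ^ (n + 1) + 1),
      ∀ c ∈ Finset.range (T * (4 ^ (p + 1)) ^ (n + 1) + 1),
      ‖f ((a : ℝ) / (4 ^ (p + 1)) ^ (n + 1)) ((c : ℝ) / (4 ^ (p + 1)) ^ (n + 1)) -
        f (((a / 4 ^ (p + 1) : ℕ) : ℝ) / (4 ^ (p + 1)) ^ n)
          (((c / 4 ^ (p + 1) : ℕ) : ℝ) / (4 ^ (p + 1)) ^ n)‖ ≤ (1 / 2 : ℝ) ^ (p * n))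
    (n : ℕ) (hn : n0 ≤ n) (s t : ℝ) (hs : 0 ≤ s) (hs' : s ≤ T) (ht : 0 ≤ t) (ht' : t ≤ T) :
    ‖f s t - f ((⌊s * (4 ^ (p + 1)) ^ n⌋₊ : ℝ) / (4 ^ (p + 1)) ^ n)
      ((⌊t * (4 ^ (p + 1)) ^ n⌋₊ : ℝ) / (4 ^ (p + 1)) ^ n)‖ ≤ 2 * (1 / 2 : ℝ) ^ (p * n) := by
  set g : ℕ → E := fun m => f ((⌊s * (4 ^ (p + 1)) ^ m⌋₊ : ℝ) / (4 ^ (p + 1)) ^ m)
      ((⌊t * (4 ^ (p + 1)) ^ m⌋₊ : ℝ) / (4 ^ (p + 1)) ^ m) with hg
  have hfl : ∀ (u : ℝ) (m : ℕ), (⌊u * (4 ^ (p + 1)) ^ (m + 1)⌋₊ / 4 ^ (p + 1) : ℕ) =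
      ⌊u * (4 ^ (p + 1)) ^ m⌋₊ := by
    intro u m
    rw [← Nat.floor_div_natCast]
    congr 1
    push_cast
    rw [pow_succ]
    field_simp
  have hrange : ∀ (u : ℝ) (m : ℕ), u ≤ T →
      ⌊u * (4 ^ (p + 1)) ^ (m + 1)⌋₊ ∈ Finset.range (T * (4 ^ (p + 1)) ^ (m + 1) + 1) := by
    intro u m hu
    rw [Finset.mem_range, Nat.lt_succ_iff]
    apply Nat.floor_le_of_le
    push_cast
    gcongr
  have hstep : ∀ m ≥ n0, ‖g (m + 1) - g m‖ ≤ (1 / 2 : ℝ) ^ (p * m) := by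
    intro m hm
    have := hgood m hm _ (hrange s m hs') _ (hrange t m ht')
    rw [hfl s m, hfl t m] at this
    exact this
  have hτ : ∀ m : ℕ, 2 * (1 / 2 : ℝ) ^ (p * (m + 1)) ≤ (1 / 2 : ℝ) ^ (p * m) := by
    intro m
    rw [mul_add, pow_add, mul_one]
    have : (1 / 2 : ℝ) ^ p ≤ 1 / 2 := by
      calc (1 / 2 : ℝ) ^ p ≤ (1 / 2) ^ 1 := pow_le_pow_of_le_one (by norm_num) (by norm_num) hp
        _ = 1 / 2 := pow_one _
    have h0 : (0 : ℝ) ≤ (1 / 2) ^ (p * m) := by positivity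
    nlinarith
  have hsum : ∀ m ≥ n, ‖g m - g n‖ ≤ 2 * (1 / 2 : ℝ) ^ (p * n) - 2 * (1 / 2 : ℝ) ^ (p * m) := by
    intro m hm
    induction m, hm using Nat.le_induction with
    | base => simp
    | succ m hm ih =>
      have h1 := hstep m (hn.trans hm)
      have h2 := hτ m
      calc ‖g (m + 1) - g n‖ = ‖(g (m + 1) - g m) + (g m - g n)‖ := by
            congr 1
            abel
        _ ≤ ‖g (m + 1) - g m‖ + ‖g m - g n‖ := norm_add_le _ _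
        _ ≤ _ := by linarith
  have hlim : Tendsto g atTop (𝓝 (f s t)) := by
    have hpow : Tendsto (fun m : ℕ => ((4 : ℝ) ^ (p + 1)) ^ m) atTop atTop :=
      tendsto_pow_atTop_atTop_of_one_lt (one_lt_pow₀ (by norm_num) (by omega))
    have h1 : Tendsto (fun m : ℕ => (⌊s * (4 ^ (p + 1)) ^ m⌋₊ : ℝ) / (4 ^ (p + 1)) ^ m) atTop
        (𝓝 s) := (tendsto_nat_floor_mul_div_atTop hs).comp hpow
    have h2 : Tendsto (fun m : ℕ => (⌊t * (4 ^ (p + 1)) ^ m⌋₊ : ℝ) / (4 ^ (p + 1)) ^ m) atTop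
        (𝓝 t) := (tendsto_nat_floor_mul_div_atTop ht).comp hpow
    have hst : ((s, t) : ℝ × ℝ) ∈ (Set.Ici (0 : ℝ)) ×ˢ (Set.Ici (0 : ℝ)) := ⟨hs, ht⟩
    have h3 := (hf (s, t) hst).tendsto
    have h4 : Tendsto (fun m : ℕ => ((⌊s * (4 ^ (p + 1)) ^ m⌋₊ : ℝ) / (4 ^ (p + 1)) ^ m,
        (⌊t * (4 ^ (p + 1)) ^ m⌋₊ : ℝ) / (4 ^ (p + 1)) ^ m)) atTop
        (𝓝[(Set.Ici (0 : ℝ)) ×ˢ (Set.Ici (0 : ℝ))] (s, t)) := by
      rw [tendsto_nhdsWithin_iff]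
      refine ⟨h1.prodMk_nhds h2, Eventually.of_forall fun m => ⟨?_, ?_⟩⟩
      · simp only [Set.mem_Ici]; positivity
      · simp only [Set.mem_Ici]; positivity
    exact h3.comp h4
  have hlim2 : Tendsto (fun m => ‖g m - g n‖) atTop (𝓝 ‖f s t - g n‖) :=
    (hlim.sub tendsto_const_nhds).norm
  apply le_of_tendsto hlim2
  filter_upwards [eventually_ge_atTop n] with m hm
  have h0 : (0 : ℝ) ≤ 2 * (1 / 2) ^ (p * m) := by positivity
  linarith [hsum m hm]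

end Pool.Agent.Helper93.Sheet
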