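import Mathlib
import Pool.Agent.Helper93.Sheet.Chain2

set_option autoImplicit false

namespace Pool.Agent.Helper93.Sheet

open MeasureTheory ProbabilityTheory ENNReal NNReal Filter Topology

variable {Ω : Type} [MeasurableSpace Ω]

/-- The grid path along a slice. -/
noncomputable def gridPath (f : ℝ → ℝ → E) (p n a : ℕ) : ℕ → E :=
  fun j => f ((a : ℝ) / (4 ^ (p + 1)) ^ n) (j * (((4 : ℝ) ^ (p + 1)) ^ n)⁻¹)

/-- The bad event: too many near coincidences along some grid slice. -/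
def badB (B : Ω → ℝ → ℝ → E) (p T : ℕ) (Rf : ℕ → ℕ) (n : ℕ) : Set Ω :=
  {ω | ∃ a ∈ Finset.range (T * (4 ^ (p + 1)) ^ n + 1),
    (1 : ℝ) / T ≤ (a : ℝ) / (4 ^ (p + 1)) ^ n ∧
    (128 : ℝ≥0∞) ^ n ≤ MM (4 * (1 / 2 : ℝ) ^ (p * n)) (gridPath (B ω) p n a) (Rf n)
      (T * (4 ^ (p + 1)) ^ n - Rf n)}

/-- Constant for the bad event. -/
noncomputable def D0 (p T : ℕ) : ℝ := 600 * 801 * (1 + 16 * T) ^ 2 * (p + T + 2)

noncomputable def DB (p T : ℕ) : ℝ :=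
  (T + 1) ^ 2 * (2 ^ (2 * p + 4) * ((2 * p + 3).factorial) ^ 2 * (D0 p T) ^ (2 * p + 3))

theorem IsWalk.aemeasurable_MM {P : Measure Ω} {W : Ω → ℕ → E} {v : ℝ≥0} (h : IsWalk P W v)
    (ρ : ℝ) (R m : ℕ) : AEMeasurable (fun ω => MM ρ (W ω) R m) P := by
  have h1 := aemeasurable_of_map_eq_prob (h.map_pair R m)
  have h2 := (measurable_AApair ρ R m).comp_aemeasurable h1
  have h3 : (fun ω => MM ρ (W ω) R m) =
      (fun p : (Fin R → E) × (Fin m → E) => A (fun y => A (ind ρ) p.2 y) p.1 0) ∘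
        (fun ω => (bwd (W ω) R R, fwd (W ω) R m)) := by
    ext ω
    exact MM_eq ρ (W ω) R m
  rw [h3]
  exact h2

theorem moment_grid {P : Measure Ω} [IsProbabilityMeasure P] {B : Ω → ℝ → ℝ → E}
    (h : IsSheet P B) (p T n a R : ℕ) (hT : 1 ≤ T) (hR : R ≤ T * (4 ^ (p + 1)) ^ n)
    (ha : (1 : ℝ) / T ≤ (a : ℝ) / (4 ^ (p + 1)) ^ n) :
    ∫⁻ ω, (MM (4 * (1 / 2 : ℝ) ^ (p * n)) (gridPath (B ω) p n a) R
      (T * (4 ^ (p + 1)) ^ n - R)) ^ (2 * p + 3) ∂P ≤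
      ENNReal.ofReal ((T + 1) * (4 ^ (p + 1)) ^ n *
        (2 ^ (2 * p + 4) * ((2 * p + 3).factorial) ^ 2 * (D0 p T * 32 ^ n) ^ (2 * p + 3))) := by
  set bn : ℝ := ((4 : ℝ) ^ (p + 1)) ^ n with hbn
  have hbn0 : 0 < bn := by positivity
  have hT0 : (0 : ℝ) < T := by exact_mod_cast hT
  set s0 : ℝ := (a : ℝ) / bn with hs0
  set v : ℝ≥0 := Real.toNNReal (s0 * bn⁻¹) with hv
  have hs00 : 0 < s0 := lt_of_lt_of_le (by positivity) ha
  have hvpos : 0 < s0 * bn⁻¹ := by positivity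
  have hvv : (v : ℝ) = s0 * bn⁻¹ := Real.coe_toNNReal _ hvpos.le
  have hv0 : v ≠ 0 := by
    intro hh
    rw [hh] at hvv
    simp only [NNReal.coe_zero] at hvv
    linarith
  set ρ : ℝ := 4 * (1 / 2 : ℝ) ^ (p * n) with hρ
  have hρ0 : 0 < ρ := by positivity
  have hwalk := h.isWalk s0 bn⁻¹ hs00.le (by positivity)
  set m : ℕ := T * (4 ^ (p + 1)) ^ n - R with hm
  set L : ℕ := (p + 1) * n + T with hL
  have hTL : (T : ℝ) + 1 ≤ 4 ^ T := by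
    have : T + 1 ≤ 4 ^ T := Nat.lt_pow_self (by norm_num)
    exact_mod_cast this
  have hLL : ((R + m + 1 : ℕ) : ℝ) ≤ 4 ^ L := by
    have e1 : R + m = T * (4 ^ (p + 1)) ^ n := by omega
    have e0 : (4 : ℝ) ^ ((p + 1) * n + T) = ((4 : ℝ) ^ (p + 1)) ^ n * 4 ^ T := by
      rw [pow_add, pow_mul]
    rw [e1, hL, e0]
    push_cast
    have e2 : (1 : ℝ) ≤ ((4 : ℝ) ^ (p + 1)) ^ n := one_le_pow₀ (one_le_pow₀ (by norm_num))
    calc (T : ℝ) * (4 ^ (p + 1)) ^ n + 1 ≤ T * (4 ^ (p + 1)) ^ n + (4 ^ (p + 1)) ^ n := by linarith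
      _ = (4 ^ (p + 1)) ^ n * (T + 1) := by ring
      _ ≤ (4 ^ (p + 1)) ^ n * 4 ^ T := by gcongr
  have hmom := moment_MM hwalk hv0 ρ hρ0 L R m (2 * p + 2) hLL
  have hlam : 1 + ρ ^ 2 / v ≤ (1 + 16 * T) * 4 ^ n := by
    have e1 : ρ ^ 2 = 16 * (1 / 4) ^ (p * n) := by
      rw [hρ, mul_pow, ← pow_mul, mul_comm (p * n) 2, pow_mul]
      norm_num
    have e2 : (1 / 4 : ℝ) ^ (p * n) * bn = 4 ^ n := by
      rw [hbn, ← pow_mul]
      have : (p + 1) * n = p * n + n := by ring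
      rw [this, pow_add, ← mul_assoc, ← mul_pow]
      norm_num
    have e3 : 1 / s0 ≤ T := by
      rw [div_le_iff₀ hs00]
      rw [div_le_iff₀ hT0] at ha
      linarith
    have e4 : ρ ^ 2 / v = 16 * 4 ^ n * (1 / s0) := by
      rw [hvv, e1, ← e2]
      field_simp
    have e5 : (1 : ℝ) ≤ 4 ^ n := one_le_pow₀ (by norm_num)
    rw [e4]
    calc 1 + 16 * 4 ^ n * (1 / s0) ≤ 4 ^ n + 16 * 4 ^ n * T := by gcongr
      _ = (1 + 16 * T) * 4 ^ n := by ring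
  have hlam0 : 0 < 1 + ρ ^ 2 / (v : ℝ) := by positivity
  have hL1 : (L : ℝ) + 1 ≤ (p + T + 2) * 2 ^ n := by
    rw [hL]
    push_cast
    have e1 : (n : ℝ) ≤ 2 ^ n := by
      have : n < 2 ^ n := Nat.lt_two_pow_self
      exact_mod_cast this.le
    have e2 : (1 : ℝ) ≤ 2 ^ n := one_le_pow₀ (by norm_num)
    have hp0 : (0 : ℝ) ≤ p := Nat.cast_nonneg p
    nlinarith
  have hprod : (600 * (1 + ρ ^ 2 / v)) * (801 * (L + 1) * (1 + ρ ^ 2 / v)) ≤ D0 p T * 32 ^ n := by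
    calc (600 * (1 + ρ ^ 2 / v)) * (801 * (L + 1) * (1 + ρ ^ 2 / v))
        ≤ (600 * ((1 + 16 * T) * 4 ^ n)) *
          (801 * ((p + T + 2) * 2 ^ n) * ((1 + 16 * T) * 4 ^ n)) := by gcongr
      _ = 600 * 801 * (1 + 16 * T) ^ 2 * (p + T + 2) * (4 ^ n * 4 ^ n * 2 ^ n) := by ring
      _ = D0 p T * 32 ^ n := by
        rw [D0, ← mul_pow, ← mul_pow]
        norm_num
  refine hmom.trans ?_
  have hnat : ((m + 1 : ℕ) : ℝ≥0∞) = ENNReal.ofReal ((m + 1 : ℕ) : ℝ) := by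
    rw [ENNReal.ofReal_natCast]
  have hfac : ((2 * p + 2 + 1).factorial : ℝ≥0∞) = ENNReal.ofReal ((2 * p + 3).factorial : ℝ) := by
    rw [ENNReal.ofReal_natCast]
  have h2 : (2 : ℝ≥0∞) = ENNReal.ofReal 2 := by norm_num
  rw [hnat, hfac, h2, ← ENNReal.ofReal_mul (by positivity), ← ENNReal.ofReal_pow (by norm_num),
    ← ENNReal.ofReal_pow (by positivity), ← ENNReal.ofReal_pow (by positivity),
    ← ENNReal.ofReal_mul (by positivity), ← ENNReal.ofReal_mul (by positivity),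
    ← ENNReal.ofReal_mul (by positivity)]
  apply ENNReal.ofReal_le_ofReal
  have hm1 : ((m + 1 : ℕ) : ℝ) ≤ (T + 1) * bn := by
    have e1 : m ≤ T * (4 ^ (p + 1)) ^ n := Nat.sub_le _ _
    have e2 : (m : ℝ) ≤ T * bn := by
      rw [hbn]
      exact_mod_cast e1
    have e3 : (1 : ℝ) ≤ bn := one_le_pow₀ (one_le_pow₀ (by norm_num))
    push_cast
    linarith
  gcongr

theorem measure_badB_one {P : Measure Ω} [IsProbabilityMeasure P] {B : Ω → ℝ → ℝ → E}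
    (h : IsSheet P B) (p T n a R : ℕ) (hT : 1 ≤ T) (hR : R ≤ T * (4 ^ (p + 1)) ^ n)
    (ha : (1 : ℝ) / T ≤ (a : ℝ) / (4 ^ (p + 1)) ^ n) :
    P {ω | (128 : ℝ≥0∞) ^ n ≤ MM (4 * (1 / 2 : ℝ) ^ (p * n)) (gridPath (B ω) p n a) R
      (T * (4 ^ (p + 1)) ^ n - R)} ≤
      ENNReal.ofReal ((T + 1) * (4 ^ (p + 1)) ^ n *
        (2 ^ (2 * p + 4) * ((2 * p + 3).factorial) ^ 2 * (D0 p T) ^ (2 * p + 3)) *
          ((1 / 4) ^ n) ^ (2 * p + 3)) := by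
  have hs00 : (0 : ℝ) ≤ (a : ℝ) / (4 ^ (p + 1)) ^ n := by positivity
  have hwalk : IsWalk P (fun ω => gridPath (B ω) p n a)
      (Real.toNNReal ((a : ℝ) / (4 ^ (p + 1)) ^ n * (((4 : ℝ) ^ (p + 1)) ^ n)⁻¹)) :=
    h.isWalk ((a : ℝ) / (4 ^ (p + 1)) ^ n) (((4 : ℝ) ^ (p + 1)) ^ n)⁻¹ hs00 (by positivity)
  set m : ℕ := T * (4 ^ (p + 1)) ^ n - R with hm
  set ρ : ℝ := 4 * (1 / 2 : ℝ) ^ (p * n) with hρ
  have hae : AEMeasurable (fun ω => (MM ρ (gridPath (B ω) p n a) R m) ^ (2 * p + 3)) P :=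
    (hwalk.aemeasurable_MM ρ R m).pow_const _
  have hmk := mul_meas_ge_le_lintegral₀ hae (((128 : ℝ≥0∞) ^ n) ^ (2 * p + 3))
  have hmom := moment_grid h p T n a R hT hR ha
  have hsub : {ω | (128 : ℝ≥0∞) ^ n ≤ MM ρ (gridPath (B ω) p n a) R m} ⊆
      {ω | ((128 : ℝ≥0∞) ^ n) ^ (2 * p + 3) ≤ (MM ρ (gridPath (B ω) p n a) R m) ^ (2 * p + 3)} := by
    intro ω hω
    simp only [Set.mem_ofPred_eq] at hω ⊢
    exact pow_le_pow_left' hω _
  have h128 : ((128 : ℝ≥0∞) ^ n) ^ (2 * p + 3) = ENNReal.ofReal (((128 : ℝ) ^ n) ^ (2 * p + 3)) := by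
    rw [ENNReal.ofReal_pow (by positivity), ENNReal.ofReal_pow (by positivity)]
    norm_num
  have hne0 : ENNReal.ofReal (((128 : ℝ) ^ n) ^ (2 * p + 3)) ≠ 0 := by
    simp only [ne_eq, ENNReal.ofReal_eq_zero, not_le]
    positivity
  rw [h128] at hsub hmk
  have h1 : ENNReal.ofReal (((128 : ℝ) ^ n) ^ (2 * p + 3)) *
      P {ω | (128 : ℝ≥0∞) ^ n ≤ MM ρ (gridPath (B ω) p n a) R m} ≤
      ENNReal.ofReal ((T + 1) * (4 ^ (p + 1)) ^ n *
        (2 ^ (2 * p + 4) * ((2 * p + 3).factorial) ^ 2 * (D0 p T * 32 ^ n) ^ (2 * p + 3))) :=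
    (mul_le_mul' le_rfl (measure_mono hsub)).trans (hmk.trans hmom)
  have h2 : P {ω | (128 : ℝ≥0∞) ^ n ≤ MM ρ (gridPath (B ω) p n a) R m} ≤
      ENNReal.ofReal ((T + 1) * (4 ^ (p + 1)) ^ n *
        (2 ^ (2 * p + 4) * ((2 * p + 3).factorial) ^ 2 * (D0 p T * 32 ^ n) ^ (2 * p + 3))) /
      ENNReal.ofReal (((128 : ℝ) ^ n) ^ (2 * p + 3)) := by
    rw [ENNReal.le_div_iff_mul_le (Or.inl hne0) (Or.inl ENNReal.ofReal_ne_top), mul_comm]
    exact h1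
  refine h2.trans (le_of_eq ?_)
  rw [← ENNReal.ofReal_div_of_pos (by positivity)]
  congr 1
  have h3 : ((1 / 4 : ℝ) ^ n) = 32 ^ n / 128 ^ n := by
    rw [← div_pow]
    norm_num
  rw [h3, mul_pow (D0 p T), div_pow]
  field_simp

theorem measure_badB {P : Measure Ω} [IsProbabilityMeasure P] {B : Ω → ℝ → ℝ → E}
    (h : IsSheet P B) (p T : ℕ) (hT : 1 ≤ T) (Rf : ℕ → ℕ)
    (hRf : ∀ n, Rf n ≤ T * (4 ^ (p + 1)) ^ n) (n : ℕ) :
    P (badB B p T Rf n) ≤ ENNReal.ofReal (DB p T * (1 / 4) ^ n) := by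
  set N : ℕ := T * (4 ^ (p + 1)) ^ n + 1 with hN
  set ε : ℝ := (T + 1) * (4 ^ (p + 1)) ^ n *
        (2 ^ (2 * p + 4) * ((2 * p + 3).factorial) ^ 2 * (D0 p T) ^ (2 * p + 3)) *
          ((1 / 4) ^ n) ^ (2 * p + 3) with hε
  have hD0 : 0 ≤ D0 p T := by unfold D0; positivity
  have hsub : badB B p T Rf n ⊆ ⋃ a ∈ Finset.range N,
      {ω | (1 : ℝ) / T ≤ (a : ℝ) / (4 ^ (p + 1)) ^ n ∧
        (128 : ℝ≥0∞) ^ n ≤ MM (4 * (1 / 2 : ℝ) ^ (p * n)) (gridPath (B ω) p n a) (Rf n)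
      (T * (4 ^ (p + 1)) ^ n - Rf n)} := by
    rintro ω ⟨a, ha, hω⟩
    simp only [Set.mem_iUnion]
    exact ⟨a, ha, hω⟩
  calc P (badB B p T Rf n) ≤ _ := measure_mono hsub
    _ ≤ ∑ a ∈ Finset.range N, P {ω | (1 : ℝ) / T ≤ (a : ℝ) / (4 ^ (p + 1)) ^ n ∧
        (128 : ℝ≥0∞) ^ n ≤ MM (4 * (1 / 2 : ℝ) ^ (p * n)) (gridPath (B ω) p n a) (Rf n)
      (T * (4 ^ (p + 1)) ^ n - Rf n)} := measure_biUnion_finset_le _ _
    _ ≤ ∑ a ∈ Finset.range N, ENNReal.ofReal ε := by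
        apply Finset.sum_le_sum
        intro a _
        by_cases ha : (1 : ℝ) / T ≤ (a : ℝ) / (4 ^ (p + 1)) ^ n
        · refine le_trans (measure_mono ?_) (measure_badB_one h p T n a (Rf n) hT (hRf n) ha)
          intro ω hω
          exact hω.2
        · have : {ω | (1 : ℝ) / T ≤ (a : ℝ) / (4 ^ (p + 1)) ^ n ∧
            (128 : ℝ≥0∞) ^ n ≤ MM (4 * (1 / 2 : ℝ) ^ (p * n)) (gridPath (B ω) p n a) (Rf n)
            (T * (4 ^ (p + 1)) ^ n - Rf n)} = (∅ : Set Ω) := by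
            ext ω
            constructor
            · intro hω
              exact absurd hω.1 ha
            · intro hω
              exact absurd hω (Set.notMem_empty _)
          rw [this, measure_empty]
          exact zero_le
    _ = ENNReal.ofReal ((N : ℝ) * ε) := by
        rw [Finset.sum_const, Finset.card_range, nsmul_eq_mul]
        rw [ENNReal.ofReal_mul (Nat.cast_nonneg N), ENNReal.ofReal_natCast]
    _ ≤ ENNReal.ofReal (DB p T * (1 / 4) ^ n) := by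
        apply ENNReal.ofReal_le_ofReal
        have hε0 : 0 ≤ ε := by positivity
        have f1 : (N : ℝ) ≤ ((T : ℝ) + 1) * (4 ^ (p + 1)) ^ n := by
          rw [hN]
          push_cast
          have : (1 : ℝ) ≤ ((4 : ℝ) ^ (p + 1)) ^ n := one_le_pow₀ (one_le_pow₀ (by norm_num))
          linarith
        have f3 : (((4 : ℝ) ^ (p + 1)) ^ n) ^ 2 * ((1 / 4) ^ n) ^ (2 * p + 3) = (1 / 4) ^ n := by
          have g1 : ((((4 : ℝ) ^ (p + 1)) ^ n)) ^ 2 = ((4 : ℝ) ^ n) ^ (2 * p + 2) := by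
            rw [← pow_mul, ← pow_mul, ← pow_mul]
            congr 1
            ring
          have g2 : (((1 : ℝ) / 4) ^ n) ^ (2 * p + 3) =
              (((1 : ℝ) / 4) ^ n) ^ (2 * p + 2) * ((1 : ℝ) / 4) ^ n := by
            rw [← pow_succ]
          rw [g1, g2, ← mul_assoc, ← mul_pow, ← mul_pow]
          norm_num
        calc (N : ℝ) * ε ≤ (((T : ℝ) + 1) * (4 ^ (p + 1)) ^ n) * ε := by gcongr
          _ = (T + 1) ^ 2 * (2 ^ (2 * p + 4) * ((2 * p + 3).factorial) ^ 2 * (D0 p T) ^ (2 * p + 3)) *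
              ((((4 : ℝ) ^ (p + 1)) ^ n) ^ 2 * ((1 / 4) ^ n) ^ (2 * p + 3)) := by
              rw [hε]
              ring
          _ = DB p T * (1 / 4) ^ n := by
              rw [f3, DB]

theorem ae_not_badB {P : Measure Ω} [IsProbabilityMeasure P] {B : Ω → ℝ → ℝ → E}
    (h : IsSheet P B) (p T : ℕ) (hT : 1 ≤ T) (Rf : ℕ → ℕ)
    (hRf : ∀ n, Rf n ≤ T * (4 ^ (p + 1)) ^ n) :
    ∀ᵐ ω ∂P, ∀ᶠ n in atTop, ω ∉ badB B p T Rf n := by
  apply ae_eventually_notMem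
  have h1 : ∑' n, P (badB B p T Rf n) ≤
      ∑' n : ℕ, ENNReal.ofReal (DB p T * (1 / 4) ^ n) :=
    ENNReal.tsum_le_tsum fun n => measure_badB h p T hT Rf hRf n
  refine ne_top_of_le_ne_top ?_ h1
  apply Summable.tsum_ofReal_ne_top
  exact (summable_geometric_of_lt_one (by norm_num) (by norm_num)).mul_left _

end Pool.Agent.Helper93.Sheet
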