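import Mathlib
import Pool.Agent.Helper93.Sheet.Cover

set_option autoImplicit false

namespace Pool.Agent.Helper93.Sheet

open MeasureTheory ProbabilityTheory ENNReal NNReal Filter Topology

variable {Ω : Type} [MeasurableSpace Ω]

/-- The ordered double-point set. -/
def DD (f : ℝ → ℝ → E) (p T c e : ℕ) (s : ℝ) : Set (ℝ × ℝ) :=
  {x : ℝ × ℝ | 0 ≤ x.1 ∧ x.1 ≤ (c : ℝ) / (4 ^ (p + 1)) ^ e ∧
      (c : ℝ) / (4 ^ (p + 1)) ^ e ≤ x.2 ∧ x.2 ≤ T ∧ f s x.1 = f s x.2}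

theorem isometry_swap : Isometry (Prod.swap : ℝ × ℝ → ℝ × ℝ) := by
  intro x y
  simp [Prod.edist_eq, max_comm]

theorem exists_cover (p : ℕ) (f : ℝ → ℝ → E) (s : ℝ) (hs : 0 < s) (x1 x2 : ℝ) (hx1 : 0 < x1)
    (hx : x1 < x2) (hf : f s x1 = f s x2) :
    ∃ T c e : ℕ, 1 ≤ T ∧ c ≤ T * (4 ^ (p + 1)) ^ e ∧ 2 / (T : ℝ) ≤ s ∧ s ≤ T ∧
      ((x1, x2) : ℝ × ℝ) ∈ DD f p T c e s := by
  obtain ⟨T, hT⟩ := exists_nat_ge (max (max s (2 / s)) (max x2 1))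
  have hTs : s ≤ T := (le_max_left _ _).trans ((le_max_left _ _).trans hT)
  have hT2 : 2 / s ≤ T := (le_max_right _ _).trans ((le_max_left _ _).trans hT)
  have hTx : x2 ≤ T := (le_max_left _ _).trans ((le_max_right _ _).trans hT)
  have hT1 : (1 : ℝ) ≤ T := (le_max_right _ _).trans ((le_max_right _ _).trans hT)
  have hpow : Tendsto (fun m : ℕ => ((4 : ℝ) ^ (p + 1)) ^ m) atTop atTop :=
    tendsto_pow_atTop_atTop_of_one_lt (one_lt_pow₀ (by norm_num) (by omega))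
  obtain ⟨e, he⟩ := (hpow.eventually_gt_atTop (1 / (x2 - x1))).exists
  have hb0 : (0 : ℝ) < ((4 : ℝ) ^ (p + 1)) ^ e := by positivity
  have hd : 0 < x2 - x1 := by linarith
  have he' : 1 < (x2 - x1) * ((4 : ℝ) ^ (p + 1)) ^ e := by
    rw [div_lt_iff₀ hd] at he
    linarith
  set c : ℕ := ⌈x1 * ((4 : ℝ) ^ (p + 1)) ^ e⌉₊ with hc
  have hc1 : x1 * ((4 : ℝ) ^ (p + 1)) ^ e ≤ c := Nat.le_ceil _
  have hc2 : (c : ℝ) < x1 * ((4 : ℝ) ^ (p + 1)) ^ e + 1 := Nat.ceil_lt_add_one (by positivity)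
  have hc3 : (c : ℝ) ≤ x2 * ((4 : ℝ) ^ (p + 1)) ^ e := by nlinarith
  refine ⟨T, c, e, by exact_mod_cast hT1, ?_, ?_, hTs, ?_⟩
  · have : (c : ℝ) ≤ T * ((4 : ℝ) ^ (p + 1)) ^ e := hc3.trans (by gcongr)
    exact_mod_cast this
  · rw [div_le_iff₀ (by linarith)]
    rw [div_le_iff₀ hs] at hT2
    linarith
  · refine ⟨hx1.le, ?_, ?_, hTx, hf⟩
    · simp only
      rw [le_div_iff₀ hb0]
      exact hc1
    · simp only
      rw [div_le_iff₀ hb0]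
      exact hc3

theorem sheet4 (P : Measure Ω) [IsProbabilityMeasure P] (B : Ω → ℝ → ℝ → E)
    (hcont : ∀ ω, ContinuousOn (fun p : ℝ × ℝ => B ω p.1 p.2)
        ((Set.Ici (0 : ℝ)) ×ˢ (Set.Ici (0 : ℝ))))
    (h : IsSheet P B) :
    ∀ᵐ ω ∂P, ∀ s : ℝ, 0 < s →
      dimH {p : ℝ × ℝ | 0 < p.1 ∧ 0 < p.2 ∧ p.1 ≠ p.2 ∧ B ω s p.1 = B ω s p.2} = 0 := by
  have hA : ∀ᵐ ω ∂P, ∀ p T : ℕ, ∀ᶠ n in atTop, ω ∉ badA B p T n := by
    rw [ae_all_iff]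
    intro p
    rw [ae_all_iff]
    intro T
    exact ae_not_badA h p T
  have hB : ∀ᵐ ω ∂P, ∀ p T c e : ℕ, 1 ≤ T → ∀ᶠ n in atTop,
      ω ∉ badB B p T (fun n => min (c * (4 ^ (p + 1)) ^ (n - e)) (T * (4 ^ (p + 1)) ^ n)) n := by
    rw [ae_all_iff]
    intro p
    rw [ae_all_iff]
    intro T
    rw [ae_all_iff]
    intro c
    rw [ae_all_iff]
    intro e
    by_cases hT : 1 ≤ T
    · filter_upwards [ae_not_badB h p T hT
        (fun n => min (c * (4 ^ (p + 1)) ^ (n - e)) (T * (4 ^ (p + 1)) ^ n))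
        (fun n => min_le_right _ _)] with ω hω _
      exact hω
    · exact ae_of_all _ fun ω hT' => absurd hT' hT
  filter_upwards [hA, hB] with ω hAω hBω s hs
  have hpiece : ∀ p T c e : ℕ, 1 ≤ p → 1 ≤ T → c ≤ T * (4 ^ (p + 1)) ^ e → 2 / (T : ℝ) ≤ s →
      s ≤ T → dimH (DD (B ω) p T c e s) ≤ ((4 / (p + 1) : ℝ≥0) : ℝ≥0∞) := by
    intro p T c e hp hT hc hs1 hs2
    obtain ⟨n1, hn1⟩ := eventually_atTop.mp (hAω p T)
    obtain ⟨n2, hn2⟩ := eventually_atTop.mp (hBω p T c e hT)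
    apply dimH_cover (B ω) (hcont ω) p T c e (max n1 n2) hp hT hc _ _ s hs1 hs2
    · intro n hn a ha c' hc'
      have h1 := hn1 n ((le_max_left _ _).trans hn)
      by_contra hcon
      push Not at hcon
      exact h1 ⟨a, ha, c', hc', hcon⟩
    · intro n hn a ha ha'
      have h1 := hn2 n ((le_max_right _ _).trans hn)
      by_contra hcon
      push Not at hcon
      exact h1 ⟨a, ha, ha', hcon⟩
  have hall : ∀ p : ℕ, 1 ≤ p →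
      dimH {x : ℝ × ℝ | 0 < x.1 ∧ 0 < x.2 ∧ x.1 ≠ x.2 ∧ B ω s x.1 = B ω s x.2} ≤
        ((4 / (p + 1) : ℝ≥0) : ℝ≥0∞) := by
    intro p hp
    let I := {i : ℕ × ℕ × ℕ // 1 ≤ i.1 ∧ i.2.1 ≤ i.1 * (4 ^ (p + 1)) ^ i.2.2 ∧
      2 / (i.1 : ℝ) ≤ s ∧ s ≤ i.1}
    have hsub : {x : ℝ × ℝ | 0 < x.1 ∧ 0 < x.2 ∧ x.1 ≠ x.2 ∧ B ω s x.1 = B ω s x.2} ⊆
        ⋃ i : I, (DD (B ω) p i.1.1 i.1.2.1 i.1.2.2 s ∪
          Prod.swap '' DD (B ω) p i.1.1 i.1.2.1 i.1.2.2 s) := by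
      rintro ⟨x1, x2⟩ ⟨h1, h2, hne, hf⟩
      simp only at h1 h2 hne hf
      rw [Set.mem_iUnion]
      rcases lt_or_gt_of_ne hne with hlt | hgt
      · obtain ⟨T, c, e, hT, hc, hs1, hs2, hmem⟩ := exists_cover p (B ω) s hs x1 x2 h1 hlt hf
        exact ⟨⟨(T, c, e), hT, hc, hs1, hs2⟩, Or.inl hmem⟩
      · obtain ⟨T, c, e, hT, hc, hs1, hs2, hmem⟩ :=
          exists_cover p (B ω) s hs x2 x1 h2 hgt hf.symm
        exact ⟨⟨(T, c, e), hT, hc, hs1, hs2⟩, Or.inr ⟨(x2, x1), hmem, rfl⟩⟩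
    refine (dimH_mono hsub).trans ?_
    rw [dimH_iUnion]
    apply iSup_le
    rintro ⟨⟨T, c, e⟩, hT, hc, hs1, hs2⟩
    rw [dimH_union, isometry_swap.dimH_image, max_self]
    exact hpiece p T c e hp hT hc hs1 hs2
  have hlim : Tendsto (fun p : ℕ => ((4 / (p + 1) : ℝ≥0) : ℝ≥0∞)) atTop (𝓝 0) := by
    rw [← ENNReal.coe_zero, ENNReal.tendsto_coe]
    have h1 : Tendsto (fun p : ℕ => (4 : ℝ) / ((p : ℝ) + 1)) atTop (𝓝 0) := by
      have := (tendsto_one_div_add_atTop_nhds_zero_nat (𝕜 := ℝ)).const_mul 4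
      simpa [div_eq_mul_inv] using this
    rw [← NNReal.tendsto_coe]
    simpa using h1
  apply le_antisymm _ (zero_le)
  apply ge_of_tendsto hlim
  filter_upwards [eventually_ge_atTop 1] with p hp
  exact hall p hp

end Pool.Agent.Helper93.Sheet
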